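import Mathlib

set_option autoImplicit false

/-!
General facts on balls in groups.
-/

namespace Pool.Agent.H374R3.CG

open Filter Topology

section
variable {G : Type} [Group G]

/-- the ball of radius `n` -/
def ball (S : Finset G) (n : ℕ) : Set G :=
  {g : G | ∃ l : List G, l.length ≤ n ∧ (∀ x ∈ l, x ∈ S ∨ x⁻¹ ∈ S) ∧ l.prod = g}

/-- the conjugacy classes meeting the ball of radius `n` -/
def cls (S : Finset G) (n : ℕ) : Set (ConjClasses G) := ConjClasses.mk '' ball S n

open Classical in
/-- the letters, with the identity -/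
noncomputable def letters (S : Finset G) : Finset G := insert 1 (S ∪ S.image (fun x => x⁻¹))

theorem mem_letters (S : Finset G) (x : G) : x ∈ letters S ↔ x = 1 ∨ x ∈ S ∨ x⁻¹ ∈ S := by
  classical
  simp only [letters, Finset.mem_insert, Finset.mem_union, Finset.mem_image]
  constructor
  · rintro (h | h | ⟨y, hy, rfl⟩)
    · exact Or.inl h
    · exact Or.inr (Or.inl h)
    · exact Or.inr (Or.inr (by simpa using hy))
  · rintro (h | h | h)
    · exact Or.inl h
    · exact Or.inr (Or.inl h)
    · exact Or.inr (Or.inr ⟨x⁻¹, h, by simp⟩)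

theorem letters_card (S : Finset G) : (letters S).card ≤ 2 * S.card + 1 := by
  classical
  unfold letters
  refine (Finset.card_insert_le _ _).trans ?_
  have h1 := Finset.card_union_le S (S.image (fun x => x⁻¹))
  have h2 : (S.image (fun x => x⁻¹)).card ≤ S.card := Finset.card_image_le
  omega

theorem ball_subset_range (S : Finset G) (n : ℕ) :
    ball S n ⊆ Set.range (fun v : Fin n → letters S => (List.ofFn (fun i => ((v i : letters S) : G))).prod) := by
  rintro g ⟨l, hl, hS, rfl⟩
  let full : List G := l ++ List.replicate (n - l.length) 1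
  have hfull : full.length = n := by simp [full]; omega
  have hmem : ∀ x ∈ full, x ∈ letters S := by
    intro x hx
    rw [mem_letters]
    simp only [full, List.mem_append, List.mem_replicate] at hx
    rcases hx with hx | hx
    · exact Or.inr (hS x hx)
    · exact Or.inl hx.2
  refine ⟨fun i => ⟨full.get (i.cast hfull.symm), hmem _ (List.get_mem _ _)⟩, ?_⟩
  have hof : List.ofFn (fun i : Fin n => full.get (i.cast hfull.symm)) = full := by
    apply List.ext_get
    · simp [hfull]
    · intro k h1 h2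
      simp
  simp only
  rw [hof]
  simp [full]

theorem ball_finite (S : Finset G) (n : ℕ) : (ball S n).Finite :=
  (Set.finite_range _).subset (ball_subset_range S n)

theorem cls_finite (S : Finset G) (n : ℕ) : (cls S n).Finite := (ball_finite S n).image _

theorem ball_card (S : Finset G) (n : ℕ) : (ball S n).ncard ≤ (2 * S.card + 1) ^ n := by
  calc (ball S n).ncard ≤ _ := Set.ncard_le_ncard (ball_subset_range S n) (Set.finite_range _)
    _ ≤ (Set.univ : Set (Fin n → letters S)).ncard := by
        rw [← Set.image_univ]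
        exact Set.ncard_image_le Set.finite_univ
    _ = (letters S).card ^ n := by
        rw [Set.ncard_univ, Nat.card_eq_fintype_card]
        simp
    _ ≤ _ := Nat.pow_le_pow_left (letters_card S) n

theorem cls_card_le (S : Finset G) (n : ℕ) : (cls S n).ncard ≤ (ball S n).ncard :=
  Set.ncard_image_le (ball_finite S n)

theorem ball_mono (S : Finset G) {m n : ℕ} (h : m ≤ n) : ball S m ⊆ ball S n := by
  rintro g ⟨l, hl, hS, rfl⟩
  exact ⟨l, hl.trans h, hS, rfl⟩

theorem cls_mono (S : Finset G) {m n : ℕ} (h : m ≤ n) : cls S m ⊆ cls S n :=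
  Set.image_mono (ball_mono S h)

theorem exists_ball {S : Finset G} (hS : Subgroup.closure (S : Set G) = ⊤) (g : G) :
    ∃ n, g ∈ ball S n := by
  have hg : g ∈ Subgroup.closure (S : Set G) := by rw [hS]; trivial
  induction hg using Subgroup.closure_induction with
  | mem s hs =>
    refine ⟨1, [s], by simp, ?_, by simp⟩
    intro x hx
    rw [List.mem_singleton] at hx
    subst hx
    exact Or.inl hs
  | one => exact ⟨0, [], by simp, by simp, rfl⟩
  | mul a b _ _ ha hb =>
    obtain ⟨m, l1, h1, h2, h3⟩ := ha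
    obtain ⟨n, l2, h4, h5, h6⟩ := hb
    refine ⟨m + n, l1 ++ l2, by rw [List.length_append]; omega, ?_, by rw [List.prod_append, h3, h6]⟩
    intro x hx
    rw [List.mem_append] at hx
    rcases hx with hx | hx
    · exact h2 x hx
    · exact h5 x hx
  | inv a _ ha =>
    obtain ⟨m, l1, h1, h2, h3⟩ := ha
    refine ⟨m, (l1.map (fun x => x⁻¹)).reverse, by simpa using h1, ?_, ?_⟩
    · intro x hx
      rw [List.mem_reverse, List.mem_map] at hx
      obtain ⟨y, hy, rfl⟩ := hx
      rw [inv_inv]
      exact (h2 y hy).symm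
    · rw [← List.prod_inv_reverse, h3]

/-- growth rate -/
noncomputable def alpha (S : Finset G) : ℝ :=
  limsup (fun n : ℕ => ((ball S n).ncard : ℝ) ^ ((1 : ℝ) / (n : ℝ))) atTop

/-- conjugacy growth rate -/
noncomputable def gam (S : Finset G) : ℝ :=
  limsup (fun n : ℕ => ((cls S n).ncard : ℝ) ^ ((1 : ℝ) / (n : ℝ))) atTop

end

section product
variable {G H : Type} [Group G] [Group H]

open Classical in
/-- the union generating set of a direct product -/
noncomputable def prodSet (S : Finset G) (T : Finset H) : Finset (G × H) :=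
  S.image (fun g => (g, (1 : H))) ∪ T.image (fun h => ((1 : G), h))

theorem mem_prodSet (S : Finset G) (T : Finset H) (p : G × H) :
    p ∈ prodSet S T ↔ (p.1 ∈ S ∧ p.2 = 1) ∨ (p.1 = 1 ∧ p.2 ∈ T) := by
  classical
  obtain ⟨g, h⟩ := p
  simp only [prodSet, Finset.mem_union, Finset.mem_image, Prod.mk.injEq]
  constructor
  · rintro (⟨a, ha, rfl, rfl⟩ | ⟨a, ha, rfl, rfl⟩)
    · exact Or.inl ⟨ha, rfl⟩
    · exact Or.inr ⟨rfl, ha⟩
  · rintro (⟨h1, h2⟩ | ⟨h1, h2⟩)
    · exact Or.inl ⟨g, h1, rfl, h2.symm⟩
    · exact Or.inr ⟨h, h2, h1.symm, rfl⟩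

theorem prodSet_closure (S : Finset G) (T : Finset H) (hS : Subgroup.closure (S : Set G) = ⊤)
    (hT : Subgroup.closure (T : Set H) = ⊤) :
    Subgroup.closure (prodSet S T : Set (G × H)) = ⊤ := by
  rw [eq_top_iff]
  rintro ⟨g, h⟩ _
  have h1 : ∀ g : G, (g, (1 : H)) ∈ Subgroup.closure (prodSet S T : Set (G × H)) := by
    intro g
    have hg : g ∈ Subgroup.closure (S : Set G) := by rw [hS]; trivial
    induction hg using Subgroup.closure_induction with
    | mem s hs =>
      apply Subgroup.subset_closure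
      rw [Finset.mem_coe, mem_prodSet]
      exact Or.inl ⟨hs, rfl⟩
    | one => exact Subgroup.one_mem _
    | mul a b _ _ ha hb =>
      have := Subgroup.mul_mem _ ha hb
      simpa using this
    | inv a _ ha =>
      have := Subgroup.inv_mem _ ha
      simpa using this
  have h2 : ∀ h : H, ((1 : G), h) ∈ Subgroup.closure (prodSet S T : Set (G × H)) := by
    intro h
    have hh : h ∈ Subgroup.closure (T : Set H) := by rw [hT]; trivial
    induction hh using Subgroup.closure_induction with
    | mem s hs =>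
      apply Subgroup.subset_closure
      rw [Finset.mem_coe, mem_prodSet]
      exact Or.inr ⟨rfl, hs⟩
    | one => exact Subgroup.one_mem _
    | mul a b _ _ ha hb =>
      have := Subgroup.mul_mem _ ha hb
      simpa using this
    | inv a _ ha =>
      have := Subgroup.inv_mem _ ha
      simpa using this
  have := Subgroup.mul_mem _ (h1 g) (h2 h)
  simpa using this

theorem ball_prod (S : Finset G) (T : Finset H) (n : ℕ) {p : G × H} (hp : p ∈ ball (prodSet S T) n) :
    ∃ i j : ℕ, i + j ≤ n ∧ p.1 ∈ ball S i ∧ p.2 ∈ ball T j := by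
  obtain ⟨l, hl, hS, rfl⟩ := hp
  suffices h : ∃ i j : ℕ, i + j ≤ l.length ∧ l.prod.1 ∈ ball S i ∧ l.prod.2 ∈ ball T j by
    obtain ⟨i, j, h1, h2, h3⟩ := h
    exact ⟨i, j, h1.trans hl, h2, h3⟩
  clear hl
  induction l with
  | nil =>
    exact ⟨0, 0, by simp, ⟨[], by simp, by simp, rfl⟩, ⟨[], by simp, by simp, rfl⟩⟩
  | cons a l ih =>
    obtain ⟨i, j, h1, ⟨l1, hl1, hS1, hp1⟩, ⟨l2, hl2, hS2, hp2⟩⟩ := ih (fun x hx => hS x (by simp [hx]))
    have ha : (a.1 ∈ S ∨ a.1⁻¹ ∈ S) ∧ a.2 = 1 ∨ a.1 = 1 ∧ (a.2 ∈ T ∨ a.2⁻¹ ∈ T) := by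
      rcases hS a (by simp) with h | h
      · rw [mem_prodSet] at h
        tauto
      · rw [mem_prodSet] at h
        simp only [Prod.fst_inv, Prod.snd_inv, inv_eq_one] at h
        tauto
    rcases ha with ⟨ha1, ha2⟩ | ⟨ha1, ha2⟩
    · refine ⟨i + 1, j, by rw [List.length_cons]; omega, ⟨a.1 :: l1, by simpa using hl1, ?_, ?_⟩,
        ⟨l2, hl2, hS2, ?_⟩⟩
      · intro x hx
        rw [List.mem_cons] at hx
        rcases hx with rfl | hx
        · exact ha1
        · exact hS1 x hx
      · rw [List.prod_cons, List.prod_cons, hp1]; rfl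
      · rw [List.prod_cons, Prod.snd_mul, ha2, one_mul, hp2]
    · refine ⟨i, j + 1, by rw [List.length_cons]; omega, ⟨l1, hl1, hS1, ?_⟩,
        ⟨a.2 :: l2, by simpa using hl2, ?_, ?_⟩⟩
      · rw [List.prod_cons, Prod.fst_mul, ha1, one_mul, hp1]
      · intro x hx
        rw [List.mem_cons] at hx
        rcases hx with rfl | hx
        · exact ha2
        · exact hS2 x hx
      · rw [List.prod_cons, List.prod_cons, hp2]; rfl

theorem ball_left (S : Finset G) (T : Finset H) (n : ℕ) {g : G} (hg : g ∈ ball S n) :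
    (g, (1 : H)) ∈ ball (prodSet S T) n := by
  obtain ⟨l, hl, hS, rfl⟩ := hg
  refine ⟨l.map (fun g => (g, (1 : H))), by simpa using hl, ?_, ?_⟩
  · intro x hx
    rw [List.mem_map] at hx
    obtain ⟨g, hg, rfl⟩ := hx
    rcases hS g hg with h | h
    · left; rw [mem_prodSet]; exact Or.inl ⟨h, rfl⟩
    · right; rw [mem_prodSet]; exact Or.inl ⟨h, by simp⟩
  · clear hl hS
    induction l with
    | nil => rfl
    | cons a l ih => rw [List.map_cons, List.prod_cons, ih, List.prod_cons]; simp

theorem ball_right (S : Finset G) (T : Finset H) (n : ℕ) {h : H} (hh : h ∈ ball T n) :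
    ((1 : G), h) ∈ ball (prodSet S T) n := by
  obtain ⟨l, hl, hS, rfl⟩ := hh
  refine ⟨l.map (fun h => ((1 : G), h)), by simpa using hl, ?_, ?_⟩
  · intro x hx
    rw [List.mem_map] at hx
    obtain ⟨g, hg, rfl⟩ := hx
    rcases hS g hg with h | h
    · left; rw [mem_prodSet]; exact Or.inr ⟨rfl, h⟩
    · right; rw [mem_prodSet]; exact Or.inr ⟨by simp, h⟩
  · clear hl hS
    induction l with
    | nil => rfl
    | cons a l ih => rw [List.map_cons, List.prod_cons, ih, List.prod_cons]; simp

theorem ball_prod_card (S : Finset G) (T : Finset H) (n : ℕ) :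
    (ball (prodSet S T) n).ncard ≤
      ∑ i ∈ Finset.range (n + 1), (ball S i).ncard * (ball T (n - i)).ncard := by
  classical
  have hsub : ball (prodSet S T) n ⊆ ⋃ i ∈ Finset.range (n + 1), (ball S i) ×ˢ (ball T (n - i)) := by
    intro p hp
    obtain ⟨i, j, hij, h1, h2⟩ := ball_prod S T n hp
    rw [Set.mem_iUnion₂]
    refine ⟨i, by rw [Finset.mem_range]; omega, h1, ball_mono T (by omega) h2⟩
  have hfin : (⋃ i ∈ Finset.range (n + 1), (ball S i) ×ˢ (ball T (n - i))).Finite :=
    Set.Finite.biUnion (Finset.finite_toSet _) (fun i _ => (ball_finite S i).prod (ball_finite T _))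
  refine (Set.ncard_le_ncard hsub hfin).trans ?_
  refine (Finset.set_ncard_biUnion_le _ _).trans ?_
  apply Finset.sum_le_sum
  intro i _
  rw [Set.ncard_prod]

theorem cls_prod_card (S : Finset G) (T : Finset H) (n : ℕ) :
    (cls (prodSet S T) n).ncard ≤
      ∑ i ∈ Finset.range (n + 1), (cls S i).ncard * (ball T (n - i)).ncard := by
  classical
  let F : ConjClasses G × H → ConjClasses (G × H) := fun p => ConjClasses.mk (Quotient.out p.1, p.2)
  have hF : ∀ (g : G) (h : H), ConjClasses.mk (g, h) = F (ConjClasses.mk g, h) := by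
    intro g h
    show ConjClasses.mk (g, h) = ConjClasses.mk (Quotient.out (ConjClasses.mk g), h)
    rw [ConjClasses.mk_eq_mk_iff_isConj]
    have h1 : IsConj (Quotient.out (ConjClasses.mk g)) g := by
      rw [← ConjClasses.mk_eq_mk_iff_isConj]
      exact Quotient.out_eq _
    rw [isConj_iff] at h1 ⊢
    obtain ⟨c, hc⟩ := h1
    refine ⟨(c⁻¹, 1), ?_⟩
    ext
    · show c⁻¹ * g * (c⁻¹)⁻¹ = Quotient.out (ConjClasses.mk g)
      generalize Quotient.out (ConjClasses.mk g) = o at hc
      rw [← hc]
      simp [mul_assoc]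
    · simp
  have hsub : cls (prodSet S T) n ⊆
      ⋃ i ∈ Finset.range (n + 1), F '' ((cls S i) ×ˢ (ball T (n - i))) := by
    rintro _ ⟨p, hp, rfl⟩
    obtain ⟨i, j, hij, h1, h2⟩ := ball_prod S T n hp
    rw [Set.mem_iUnion₂]
    refine ⟨i, by rw [Finset.mem_range]; omega, (ConjClasses.mk p.1, p.2),
      ⟨⟨p.1, h1, rfl⟩, ball_mono T (by omega) h2⟩, ?_⟩
    exact (hF p.1 p.2).symm
  have hf : ∀ i, ((cls S i) ×ˢ (ball T (n - i))).Finite := fun i =>
    (cls_finite S i).prod (ball_finite T _)
  have hfin : (⋃ i ∈ Finset.range (n + 1), F '' ((cls S i) ×ˢ (ball T (n - i)))).Finite :=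
    Set.Finite.biUnion (Finset.finite_toSet _) (fun i _ => (hf i).image _)
  refine (Set.ncard_le_ncard hsub hfin).trans ?_
  refine (Finset.set_ncard_biUnion_le _ _).trans ?_
  apply Finset.sum_le_sum
  intro i _
  refine (Set.ncard_image_le (hf i)).trans ?_
  rw [Set.ncard_prod]

theorem cls_right_card (S : Finset G) (T : Finset H) (n : ℕ) :
    (cls T n).ncard ≤ (cls (prodSet S T) n).ncard := by
  classical
  let F : ConjClasses H → ConjClasses (G × H) := ConjClasses.map (MonoidHom.inr G H)
  have hinj : Function.Injective F := by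
    intro a b h
    have h1 := congrArg (ConjClasses.map (MonoidHom.snd G H)) h
    obtain ⟨a, rfl⟩ := ConjClasses.exists_rep a
    obtain ⟨b, rfl⟩ := ConjClasses.exists_rep b
    exact h1
  rw [← Set.ncard_image_of_injective _ hinj]
  apply Set.ncard_le_ncard _ (cls_finite _ _)
  rintro _ ⟨_, ⟨h, hh, rfl⟩, rfl⟩
  exact ⟨(1, h), ball_right S T n hh, rfl⟩

theorem ball_left_card (S : Finset G) (T : Finset H) (n : ℕ) :
    (ball S n).ncard ≤ (ball (prodSet S T) n).ncard := by
  have hinj : Function.Injective (fun g : G => (g, (1 : H))) := by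
    intro a b h
    exact congrArg Prod.fst h
  rw [← Set.ncard_image_of_injective _ hinj]
  apply Set.ncard_le_ncard _ (ball_finite _ _)
  rintro _ ⟨g, hg, rfl⟩
  exact ball_left S T n hg

end product

end Pool.Agent.H374R3.CG
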