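import Mathlib

set_option autoImplicit false

/-!
Restricted wreath products and their growth.
-/

namespace Pool.Agent.H374R3.CG

/-- the restricted (standard) wreath product -/
@[ext] structure Wr (A P : Type) [Group A] [Group P] where
  lamp : P → A
  fin : (Function.mulSupport lamp).Finite
  pos : P

namespace Wr

variable {A P : Type} [Group A] [Group P]

theorem ext' {u v : Wr A P} (h1 : ∀ z, u.lamp z = v.lamp z) (h2 : u.pos = v.pos) : u = v := by
  apply Wr.ext
  · funext z; exact h1 z
  · exact h2

theorem fin_translate {f : P → A} (hf : (Function.mulSupport f).Finite) (p : P) :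
    (Function.mulSupport (fun z => f (p * z))).Finite := by
  have : Function.mulSupport (fun z => f (p * z)) = (fun z => p * z) ⁻¹' Function.mulSupport f := rfl
  rw [this]
  exact hf.preimage (mul_right_injective p).injOn

instance : Mul (Wr A P) :=
  ⟨fun u v => ⟨fun z => u.lamp z * v.lamp (u.pos⁻¹ * z), by
    refine (u.fin.union (fin_translate v.fin u.pos⁻¹)).subset ?_
    intro z hz
    by_contra h
    simp only [Set.mem_union, Function.mem_mulSupport, not_or, not_not] at h
    exact hz (by show u.lamp z * v.lamp (u.pos⁻¹ * z) = 1; rw [h.1, h.2, mul_one]), u.pos * v.pos⟩⟩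

instance : One (Wr A P) := ⟨⟨fun _ => 1, by simp [Function.mulSupport], 1⟩⟩

instance : Inv (Wr A P) :=
  ⟨fun u => ⟨fun z => (u.lamp (u.pos * z))⁻¹, by
    refine (fin_translate u.fin u.pos).subset ?_
    intro z hz
    simp only [Function.mem_mulSupport, ne_eq, inv_eq_one] at hz ⊢
    exact hz, u.pos⁻¹⟩⟩

@[simp] theorem mul_lamp (u v : Wr A P) (z : P) : (u * v).lamp z = u.lamp z * v.lamp (u.pos⁻¹ * z) := rfl
@[simp] theorem mul_pos' (u v : Wr A P) : (u * v).pos = u.pos * v.pos := rfl
@[simp] theorem one_lamp (z : P) : (1 : Wr A P).lamp z = 1 := rfl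
@[simp] theorem one_pos' : (1 : Wr A P).pos = 1 := rfl
@[simp] theorem inv_lamp (u : Wr A P) (z : P) : (u⁻¹).lamp z = (u.lamp (u.pos * z))⁻¹ := rfl
@[simp] theorem inv_pos' (u : Wr A P) : (u⁻¹).pos = u.pos⁻¹ := rfl

instance : Group (Wr A P) :=
  Group.ofLeftAxioms
    (by
      intro u v w
      apply ext'
      · intro z; simp [mul_assoc]
      · simp [mul_assoc])
    (by
      intro u
      apply ext'
      · intro z; simp
      · simp)
    (by
      intro u
      apply ext'
      · intro z; simp
      · simp)

/-- lamps only -/
def lmp (h : P → A) (hh : (Function.mulSupport h).Finite) : Wr A P := ⟨h, hh, 1⟩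

/-- the translation -/
def tr (p : P) : Wr A P := ⟨fun _ => 1, by simp [Function.mulSupport], p⟩

open Classical in
/-- one lamp at the point `z`, and a translation by `p` -/
noncomputable def dl (z : P) (a : A) (p : P) : Wr A P :=
  ⟨fun u => if u = z then a else 1, by
    refine (Set.finite_singleton z).subset ?_
    intro u hu
    simp only [Function.mem_mulSupport, ne_eq, ite_eq_right_iff, Classical.not_imp] at hu
    exact hu.1, p⟩

open Classical in
@[simp] theorem dl_lamp (z : P) (a : A) (p u : P) : (dl z a p).lamp u = if u = z then a else 1 := rfl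
@[simp] theorem dl_pos (z : P) (a : A) (p : P) : (dl z a p : Wr A P).pos = p := rfl
@[simp] theorem tr_lamp (p u : P) : (tr p : Wr A P).lamp u = 1 := rfl
@[simp] theorem tr_pos (p : P) : (tr p : Wr A P).pos = p := rfl
@[simp] theorem lmp_lamp (h : P → A) (hh : (Function.mulSupport h).Finite) (u : P) :
    (lmp h hh).lamp u = h u := rfl
@[simp] theorem lmp_pos (h : P → A) (hh : (Function.mulSupport h).Finite) :
    (lmp h hh).pos = 1 := rfl

theorem tr_mul (p q : P) : (tr (p * q) : Wr A P) = tr p * tr q := by
  apply ext' <;> simp

theorem tr_one : (tr 1 : Wr A P) = 1 := by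
  apply ext' <;> simp

theorem tr_inv (p : P) : (tr p⁻¹ : Wr A P) = (tr p)⁻¹ := by
  apply ext' <;> simp

/-- A subgroup which contains the lamps at `1` and the translations by generators is everything. -/
theorem eq_top (H : Subgroup (Wr A P)) (h1 : ∀ a : A, dl 1 a 1 ∈ H) (SP : Set P)
    (hSP : Subgroup.closure SP = ⊤) (h2 : ∀ s ∈ SP, tr s ∈ H) : H = ⊤ := by
  classical
  have h3 : ∀ p : P, tr p ∈ H := by
    intro p
    have hp : p ∈ Subgroup.closure SP := by rw [hSP]; trivial
    induction hp using Subgroup.closure_induction with
    | mem s hs => exact h2 s hs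
    | one => rw [tr_one]; exact H.one_mem
    | mul p q _ _ hp hq => rw [tr_mul]; exact H.mul_mem hp hq
    | inv p _ hp => rw [tr_inv]; exact H.inv_mem hp
  have h4 : ∀ (z : P) (a : A), dl z a 1 ∈ H := by
    intro z a
    have : (dl z a 1 : Wr A P) = tr z * dl 1 a 1 * (tr z)⁻¹ := by
      apply ext'
      · intro u
        simp only [dl_lamp, mul_lamp, tr_lamp, tr_pos, one_mul, mul_pos', dl_pos, mul_one, inv_lamp,
          inv_one]
        have : z⁻¹ * u = 1 ↔ u = z := by rw [inv_mul_eq_one]; exact eq_comm
        simp only [this]
      · simp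
    rw [this]
    exact H.mul_mem (H.mul_mem (h3 z) (h1 a)) (H.inv_mem (h3 z))
  have h5 : ∀ (n : ℕ) (h : P → A) (hh : (Function.mulSupport h).Finite), hh.toFinset.card = n →
      lmp h hh ∈ H := by
    intro n
    induction n with
    | zero =>
      intro h hh hn
      have hempty : Function.mulSupport h = ∅ := by
        rw [Finset.card_eq_zero] at hn
        simpa using hn
      have : lmp h hh = 1 := by
        apply ext'
        · intro z
          have hz : z ∉ Function.mulSupport h := by rw [hempty]; simp
          simpa using hz
        · rfl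
      rw [this]; exact H.one_mem
    | succ n ih =>
      intro h hh hn
      obtain ⟨z, hz⟩ : ∃ z, z ∈ hh.toFinset := by
        rw [← Finset.Nonempty, ← Finset.card_pos]; omega
      let h' : P → A := fun u => if u = z then 1 else h u
      have hsub : Function.mulSupport h' = Function.mulSupport h \ {z} := by
        ext u
        simp only [Function.mem_mulSupport, h', Set.mem_sdiff, Set.mem_singleton_iff]
        by_cases hu : u = z
        · simp [hu]
        · simp [hu]
      have hh' : (Function.mulSupport h').Finite := by
        rw [hsub]; exact hh.subset Set.sdiff_subset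
      have hcard : hh'.toFinset.card = n := by
        have : hh'.toFinset = hh.toFinset.erase z := by
          ext u
          simp only [Set.Finite.mem_toFinset, hsub, Finset.mem_erase, Set.mem_sdiff,
            Set.mem_singleton_iff]
          tauto
        rw [this, Finset.card_erase_of_mem hz, hn]; rfl
      have key : lmp h hh = dl z (h z) 1 * lmp h' hh' := by
        apply ext'
        · intro u
          simp only [lmp_lamp, mul_lamp, dl_lamp, dl_pos, inv_one, one_mul, h']
          by_cases hu : u = z
          · simp [hu]
          · simp [hu]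
        · simp
      rw [key]
      exact H.mul_mem (h4 _ _) (ih h' hh' hcard)
  rw [eq_top_iff]
  intro w _
  have : w = lmp w.lamp w.fin * tr w.pos := by
    apply ext'
    · intro z; simp
    · simp
  rw [this]
  exact H.mul_mem (h5 _ _ _ rfl) (h3 _)

end Wr

end Pool.Agent.H374R3.CG
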