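import Mathlib
import Pool.Agent.H374R3.WrBase
import Pool.Agent.H374R3.GenGrowth

set_option autoImplicit false

/-!
Conjugacy classes in wreath products over torsion groups.
-/

namespace Pool.Agent.H374R3.CG

namespace Wr

variable {A P : Type} [Group A] [Group P]

/-- twisted conjugation of lamp configurations -/
def tw (q : P) (h f : P → A) : P → A := fun z => h z * f z * (h (q⁻¹ * z))⁻¹

theorem tw_tw (q : P) (h h' f : P → A) : tw q h' (tw q h f) = tw q (fun z => h' z * h z) f := by
  funext z
  simp [tw, mul_assoc]

/-- the union of the `q`-orbits of the points of `O` -/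
def orb (q : P) (O : List P) : Set P := {u : P | ∃ o ∈ O, ∃ j : ℤ, u = q ^ j * o}

theorem orb_finite {q : P} (hq : IsOfFinOrder q) (O : List P) : (orb q O).Finite := by
  have hz : (Subgroup.zpowers q : Set P).Finite := finite_zpowers.mpr hq
  have h2 : (⋃ o ∈ {o | o ∈ O}, (fun g => g * o) '' (Subgroup.zpowers q : Set P)).Finite :=
    Set.Finite.biUnion (List.finite_toSet O) (fun o _ => hz.image _)
  refine h2.subset ?_
  rintro u ⟨o, ho, j, rfl⟩
  rw [Set.mem_iUnion₂]
  exact ⟨o, ho, q ^ j, ⟨j, rfl⟩, rfl⟩

theorem orb_step {q : P} {O : List P} {u : P} : u ∈ orb q O ↔ q⁻¹ * u ∈ orb q O := by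
  constructor
  · rintro ⟨o, ho, j, rfl⟩
    exact ⟨o, ho, j - 1, by rw [zpow_sub_one, ← mul_assoc, (Commute.refl q).inv_left.zpow_right j |>.eq]⟩
  · rintro ⟨o, ho, j, hj⟩
    refine ⟨o, ho, j + 1, ?_⟩
    rw [inv_mul_eq_iff_eq_mul] at hj
    rw [hj, zpow_add_one, ← mul_assoc, (Commute.refl q).zpow_right j |>.eq]

/-- Normal form for twisted conjugation over an element of finite order. -/
theorem normal_form {ι : Type} (rep : ι → A) (i0 : ι) (h1 : rep i0 = 1)
    (hR : ∀ a : A, ∃ (c : A) (i : ι), c * a * c⁻¹ = rep i) {q : P} (hq : IsOfFinOrder q) (O : List P) :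
    ∀ f : P → A, (∀ z, f z ≠ 1 → z ∈ O) → ∃ h : P → A, (∀ u, h u ≠ 1 → u ∈ orb q O) ∧
      (∀ z, tw q h f z ≠ 1 → z ∈ O) ∧ (∀ z, ∃ i, tw q h f z = rep i) := by
  classical
  induction O with
  | nil =>
    intro f hf
    have hf1 : ∀ z, f z = 1 := by
      intro z
      by_contra h
      simpa using hf z h
    refine ⟨fun _ => 1, by simp, ?_, ?_⟩
    · intro z hz
      simp [tw, hf1] at hz
    · intro z
      exact ⟨i0, by simp [tw, hf1, h1]⟩
  | cons z O ih =>
    intro f hf
    by_cases hzO : z ∈ O
    · -- the point is superfluous
      have hf' : ∀ u, f u ≠ 1 → u ∈ O := by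
        intro u hu
        rcases List.mem_cons.mp (hf u hu) with rfl | h
        · exact hzO
        · exact h
      obtain ⟨h, hh1, hh2, hh3⟩ := ih f hf'
      refine ⟨h, ?_, fun u hu => List.mem_cons_of_mem _ (hh2 u hu), hh3⟩
      intro u hu
      obtain ⟨o, ho, j, rfl⟩ := hh1 u hu
      exact ⟨o, List.mem_cons_of_mem _ ho, j, rfl⟩
    by_cases hex : ∃ j : ℕ, 1 ≤ j ∧ q ^ j * z ∈ O
    · -- the orbit of z meets O
      let j := Nat.find hex
      have hj : 1 ≤ j ∧ q ^ j * z ∈ O := Nat.find_spec hex
      have hmin : ∀ i < j, ¬ (1 ≤ i ∧ q ^ i * z ∈ O) := fun i hi => Nat.find_min hex hi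
      let Z : P → Prop := fun u => ∃ i < j, u = q ^ i * z
      let a : A := (f z)⁻¹
      let h0 : P → A := fun u => if Z u then a else 1
      have hZz : Z z := ⟨0, by omega, by simp⟩
      have hZqz : ¬ Z (q⁻¹ * z) := by
        rintro ⟨i, hi, he⟩
        rw [inv_mul_eq_iff_eq_mul, ← mul_assoc, ← pow_succ'] at he
        rcases Nat.lt_or_ge (i + 1) j with h | h
        · have h3 : q ^ (j - (i + 1)) * z = q ^ j * z := by
            conv_lhs => rw [he]
            rw [← mul_assoc, ← pow_add]
            congr 2
            omega
          exact hmin (j - (i + 1)) (by omega) ⟨by omega, by rw [h3]; exact hj.2⟩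
        · have : i + 1 = j := by omega
          rw [this] at he
          exact hzO (by rw [he]; exact hj.2)
      have hf1 : ∀ u, tw q h0 f u ≠ 1 → u ∈ O := by
        intro u hu
        by_contra huO
        apply hu
        by_cases huz : u = z
        · subst huz
          simp only [tw, h0]
          rw [if_pos hZz, if_neg hZqz]
          simp [a]
        · have hfu : f u = 1 := by
            by_contra h
            rcases List.mem_cons.mp (hf u h) with h' | h'
            · exact huz h'
            · exact huO h'
          have hiff : Z u ↔ Z (q⁻¹ * u) := by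
            constructor
            · rintro ⟨i, hi, rfl⟩
              rcases Nat.eq_zero_or_pos i with rfl | hi0
              · exact absurd (by simp) huz
              · refine ⟨i - 1, by omega, ?_⟩
                rw [inv_mul_eq_iff_eq_mul, ← mul_assoc, ← pow_succ']
                congr 2
                omega
            · rintro ⟨i, hi, he⟩
              rw [inv_mul_eq_iff_eq_mul, ← mul_assoc, ← pow_succ'] at he
              rcases Nat.lt_or_ge (i + 1) j with h | h
              · exact ⟨i + 1, h, he⟩
              · exfalso
                have : i + 1 = j := by omega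
                rw [this] at he
                exact huO (by rw [he]; exact hj.2)
          simp only [tw, h0, hfu, mul_one]
          by_cases hZu : Z u
          · rw [if_pos hZu, if_pos (hiff.mp hZu)]; simp
          · rw [if_neg hZu, if_neg (fun h => hZu (hiff.mpr h))]; simp
      obtain ⟨h, hh1, hh2, hh3⟩ := ih (tw q h0 f) hf1
      refine ⟨fun u => h u * h0 u, ?_, ?_, ?_⟩
      · intro u hu
        by_cases hu1 : h u = 1
        · have hu0 : h0 u ≠ 1 := by
            intro h'
            exact hu (by simp [hu1, h'])
          have hZu : Z u := by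
            by_contra hZ
            exact hu0 (by simp [h0, hZ])
          obtain ⟨i, -, rfl⟩ := hZu
          exact ⟨z, List.mem_cons_self, i, by simp⟩
        · obtain ⟨o, ho, j, rfl⟩ := hh1 u hu1
          exact ⟨o, List.mem_cons_of_mem _ ho, j, rfl⟩
      · intro u hu
        rw [← tw_tw] at hu
        exact List.mem_cons_of_mem _ (hh2 u hu)
      · intro u
        rw [← tw_tw]
        exact hh3 u
    · -- the orbit of z does not meet O
      have hno : ∀ i : ℤ, q ^ i * z ∉ O := by
        intro i hi
        apply hex
        have hpos := hq.orderOf_pos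
        -- replace i by a positive exponent
        refine ⟨(i % (orderOf q : ℤ)).toNat + orderOf q, by omega, ?_⟩
        have h3 : q ^ ((i % (orderOf q : ℤ)).toNat + orderOf q) = q ^ i := by
          rw [pow_add, pow_orderOf_eq_one, mul_one, ← zpow_natCast,
            Int.toNat_of_nonneg (Int.emod_nonneg _ (by omega)), zpow_mod_orderOf]
        rw [h3]; exact hi
      let f0 : P → A := fun u => if u = z then 1 else f u
      have hf0 : ∀ u, f0 u ≠ 1 → u ∈ O := by
        intro u hu
        simp only [f0] at hu
        by_cases huz : u = z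
        · rw [if_pos huz] at hu; exact absurd rfl hu
        · rw [if_neg huz] at hu
          rcases List.mem_cons.mp (hf u hu) with h' | h'
          · exact absurd h' huz
          · exact h'
      obtain ⟨h, hh1, hh2, hh3⟩ := ih f0 hf0
      obtain ⟨c, i1, hc⟩ := hR (f z)
      let Z : P → Prop := fun u => u ∈ orb q [z]
      have hZstep : ∀ u, Z u ↔ Z (q⁻¹ * u) := fun u => orb_step
      have hZO : ∀ u, Z u → u ∉ O := by
        rintro u ⟨o, ho, j, rfl⟩ huO
        rw [List.mem_singleton] at ho
        subst ho
        exact hno j huO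
      have key : ∀ u, tw q (fun u => if Z u then c else h u) f u =
          if Z u then (if u = z then rep i1 else 1) else tw q h f0 u := by
        intro u
        by_cases hZu : Z u
        · rw [if_pos hZu]
          simp only [tw]
          rw [if_pos hZu, if_pos ((hZstep u).mp hZu)]
          by_cases huz : u = z
          · rw [if_pos huz, huz, hc]
          · rw [if_neg huz]
            have : f u = 1 := by
              by_contra h'
              rcases List.mem_cons.mp (hf u h') with h'' | h''
              · exact huz h''
              · exact hZO u hZu h''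
            rw [this]; simp
        · rw [if_neg hZu]
          simp only [tw]
          rw [if_neg hZu, if_neg (fun h' => hZu ((hZstep u).mpr h'))]
          have huz : u ≠ z := by
            rintro rfl
            exact hZu ⟨u, List.mem_singleton_self u, 0, by simp⟩
          simp only [f0, if_neg huz]
      refine ⟨fun u => if Z u then c else h u, ?_, ?_, ?_⟩
      · intro u hu
        by_cases hZu : Z u
        · obtain ⟨o, ho, j, rfl⟩ := hZu
          rw [List.mem_singleton] at ho
          subst ho
          exact ⟨o, List.mem_cons_self, j, rfl⟩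
        · simp only [if_neg hZu] at hu
          obtain ⟨o, ho, j, rfl⟩ := hh1 u hu
          exact ⟨o, List.mem_cons_of_mem _ ho, j, rfl⟩
      · intro u hu
        rw [key] at hu
        by_cases hZu : Z u
        · rw [if_pos hZu] at hu
          by_cases huz : u = z
          · rw [huz]; exact List.mem_cons_self
          · rw [if_neg huz] at hu; exact absurd rfl hu
        · rw [if_neg hZu] at hu
          exact List.mem_cons_of_mem _ (hh2 u hu)
      · intro u
        rw [key]
        by_cases hZu : Z u
        · rw [if_pos hZu]
          by_cases huz : u = z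
          · rw [if_pos huz]; exact ⟨i1, rfl⟩
          · rw [if_neg huz]; exact ⟨i0, h1.symm⟩
        · rw [if_neg hZu]
          exact hh3 u

/-- Every element is conjugate to one with lamps in the same set and with values in the
representatives. -/
theorem conj_normal_form {ι : Type} (rep : ι → A) (i0 : ι) (h1 : rep i0 = 1)
    (hR : ∀ a : A, ∃ (c : A) (i : ι), c * a * c⁻¹ = rep i) (w : Wr A P) (hq : IsOfFinOrder w.pos)
    (O : List P) (hO : ∀ z, w.lamp z ≠ 1 → z ∈ O) :
    ∃ w' : Wr A P, IsConj w w' ∧ w'.pos = w.pos ∧ (∀ z, w'.lamp z ≠ 1 → z ∈ O) ∧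
      (∀ z, ∃ i, w'.lamp z = rep i) := by
  obtain ⟨h, hh1, hh2, hh3⟩ := normal_form rep i0 h1 hR hq O w.lamp hO
  have hfin : (Function.mulSupport h).Finite := (orb_finite hq O).subset (fun u hu => hh1 u hu)
  refine ⟨lmp h hfin * w * (lmp h hfin)⁻¹, ?_, ?_, ?_, ?_⟩
  · rw [isConj_iff]
    exact ⟨lmp h hfin, rfl⟩
  · simp
  · intro z hz
    apply hh2
    simpa [tw] using hz
  · intro z
    obtain ⟨i, hi⟩ := hh3 z
    refine ⟨i, ?_⟩
    rw [← hi]
    simp [tw]

end Wr
end Pool.Agent.H374R3.CG
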