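import Mathlib
import Pool.Agent.H374R3.WrCls

set_option autoImplicit false

/-!
Counting in wreath products over infinite torsion groups.
-/

namespace Pool.Agent.H374R3.CG

namespace Wr

variable {A P : Type} [Group A] [Group P]

/-- lamps supported on `1` and the position -/
def Loc (w : Wr A P) : Prop := ∀ z, w.lamp z ≠ 1 → z = 1 ∨ z = w.pos

theorem Loc.inv {w : Wr A P} (h : Loc w) : Loc w⁻¹ := by
  intro z hz
  simp only [inv_lamp, ne_eq, inv_eq_one] at hz
  rcases h _ hz with h | h
  · right
    rw [inv_pos']
    exact eq_inv_of_mul_eq_one_right h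
  · left
    exact mul_eq_left.mp h

theorem loc_one : Loc (1 : Wr A P) := by
  intro z hz; simp at hz

theorem loc_dl (a : A) (p : P) : Loc (dl 1 a p) := by
  classical
  intro z hz
  left
  by_contra h
  exact hz (by simp [h])

/-- the points visited -/
def pts : List P → List P
  | [] => [1]
  | s :: l => 1 :: (pts l).map (fun z => s * z)

theorem pts_length (l : List P) : (pts l).length = l.length + 1 := by
  induction l with
  | nil => rfl
  | cons s l ih => simp [pts, ih]

theorem one_mem_pts (l : List P) : (1 : P) ∈ pts l := by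
  cases l <;> simp [pts]

theorem supp_prod (l : List (Wr A P)) (h : ∀ w ∈ l, Loc w) :
    (∀ z, l.prod.lamp z ≠ 1 → z ∈ pts (l.map Wr.pos)) ∧ l.prod.pos = (l.map Wr.pos).prod := by
  induction l with
  | nil =>
    refine ⟨?_, rfl⟩
    intro z hz
    simp at hz
  | cons w l ih =>
    obtain ⟨h1, h2⟩ := ih (fun v hv => h v (by simp [hv]))
    refine ⟨?_, ?_⟩
    · intro z hz
      rw [List.prod_cons, mul_lamp] at hz
      rw [List.map_cons]
      simp only [pts, List.mem_cons, List.mem_map]
      by_cases hw : w.lamp z = 1
      · rw [hw, one_mul] at hz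
        right
        exact ⟨_, h1 _ hz, by simp⟩
      · rcases h w (by simp) z hw with h3 | h3
        · left; exact h3
        · right; exact ⟨1, one_mem_pts _, by simp [h3]⟩
    · rw [List.prod_cons, mul_pos', h2]; simp

variable [Fintype A]

open Classical in
/-- the generating set of the wreath product attached to a generating set of `P` -/
noncomputable def gen (SP : Finset P) : Finset (Wr A P) :=
  (Finset.univ ×ˢ letters SP).image (fun p : A × P => dl 1 p.1 p.2)

theorem mem_gen (SP : Finset P) (w : Wr A P) :
    w ∈ gen SP ↔ ∃ (a : A) (p : P), p ∈ letters SP ∧ w = dl 1 a p := by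
  classical
  simp only [gen, Finset.mem_image, Finset.mem_product, Finset.mem_univ, true_and, Prod.exists]
  constructor
  · rintro ⟨a, p, h1, h2⟩; exact ⟨a, p, h1, h2.symm⟩
  · rintro ⟨a, p, h1, h2⟩; exact ⟨a, p, h1, h2.symm⟩

theorem gen_card (SP : Finset P) :
    (gen SP : Finset (Wr A P)).card ≤ Fintype.card A * (letters SP).card := by
  classical
  unfold gen
  refine Finset.card_image_le.trans ?_
  rw [Finset.card_product, Finset.card_univ]

omit [Fintype A] in
theorem dl_one (p : P) : (dl 1 (1 : A) p) = tr p := by
  apply ext' <;> simp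

theorem gen_closure (SP : Finset P) (hSP : Subgroup.closure (SP : Set P) = ⊤) :
    Subgroup.closure ((gen SP : Finset (Wr A P)) : Set (Wr A P)) = ⊤ := by
  apply eq_top _ _ (SP : Set P) hSP
  · intro s hs
    apply Subgroup.subset_closure
    rw [Finset.mem_coe, mem_gen]
    exact ⟨1, s, by rw [mem_letters]; exact Or.inr (Or.inl hs), (dl_one s).symm⟩
  · intro a
    apply Subgroup.subset_closure
    rw [Finset.mem_coe, mem_gen]
    exact ⟨a, 1, by rw [mem_letters]; exact Or.inl rfl, rfl⟩

theorem letters_inv {SP : Finset P} {p : P} (h : p ∈ letters SP) : p⁻¹ ∈ letters SP := by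
  rw [mem_letters] at h ⊢
  rcases h with rfl | h | h
  · left; simp
  · right; right; simpa using h
  · right; left; exact h

theorem gen_props {SP : Finset P} {w : Wr A P} (h : w ∈ gen SP ∨ w⁻¹ ∈ gen SP) :
    Loc w ∧ w.pos ∈ letters SP := by
  rcases h with h | h
  · rw [mem_gen] at h
    obtain ⟨a, p, hp, rfl⟩ := h
    exact ⟨loc_dl a p, hp⟩
  · rw [mem_gen] at h
    obtain ⟨a, p, hp, he⟩ := h
    have : w = (dl 1 a p)⁻¹ := by rw [← he, inv_inv]
    rw [this]
    exact ⟨(loc_dl a p).inv, letters_inv hp⟩

/-- the elements of the ball -/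
theorem ball_form {SP : Finset P} {n : ℕ} {w : Wr A P} (hw : w ∈ ball (gen SP) n) :
    ∃ s : Fin n → letters SP, w.pos = (List.ofFn (fun i => ((s i : letters SP) : P))).prod ∧
      ∀ z, w.lamp z ≠ 1 → z ∈ pts (List.ofFn (fun i => ((s i : letters SP) : P))) := by
  obtain ⟨l, hl, hS, rfl⟩ := hw
  let full : List (Wr A P) := l ++ List.replicate (n - l.length) 1
  have hfull : full.length = n := by simp [full]; omega
  have hprod : full.prod = l.prod := by simp [full]
  have hmem : ∀ x ∈ full, Loc x ∧ x.pos ∈ letters SP := by
    intro x hx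
    simp only [full, List.mem_append, List.mem_replicate] at hx
    rcases hx with hx | hx
    · exact gen_props (hS x hx)
    · rw [hx.2]
      exact ⟨loc_one, by rw [mem_letters]; exact Or.inl rfl⟩
  have hsp := supp_prod full (fun w hw => (hmem w hw).1)
  have hof : List.ofFn (fun i : Fin n => (full.get (i.cast hfull.symm)).pos) = full.map Wr.pos := by
    apply List.ext_get
    · simp [hfull]
    · intro k h1 h2
      simp
  refine ⟨fun i => ⟨(full.get (i.cast hfull.symm)).pos, (hmem _ (List.get_mem _ _)).2⟩, ?_, ?_⟩
  · simp only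
    rw [hof, ← hsp.2, hprod]
  · simp only
    rw [hof, ← hprod]
    exact hsp.1

open Classical in
/-- the normal forms -/
noncomputable def nform {ι : Type} (rep : ι → A) (SP : Finset P) (n : ℕ)
    (p : (Fin n → letters SP) × (Fin (n + 1) → ι)) : Wr A P :=
  ⟨fun z => if h : z ∈ pts (List.ofFn (fun i => ((p.1 i : letters SP) : P))) then
      rep (p.2 ⟨List.idxOf z (pts (List.ofFn (fun i => ((p.1 i : letters SP) : P)))), by
        have := List.idxOf_lt_length_of_mem h
        rw [pts_length, List.length_ofFn] at this
        exact this⟩) else 1, by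
    refine (List.finite_toSet (pts (List.ofFn (fun i => ((p.1 i : letters SP) : P))))).subset ?_
    intro z hz
    by_contra h
    exact hz (dif_neg h), (List.ofFn (fun i => ((p.1 i : letters SP) : P))).prod⟩

theorem cls_subset {ι : Type} (rep : ι → A) (i0 : ι) (h1 : rep i0 = 1)
    (hR : ∀ a : A, ∃ (c : A) (i : ι), c * a * c⁻¹ = rep i) (htor : ∀ g : P, IsOfFinOrder g)
    (SP : Finset P) (n : ℕ) :
    cls (gen SP : Finset (Wr A P)) n ⊆ Set.range (fun p => ConjClasses.mk (nform rep SP n p)) := by
  classical
  rintro _ ⟨w, hw, rfl⟩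
  obtain ⟨s, hs1, hs2⟩ := ball_form hw
  obtain ⟨w', hc, hp, hO, hr⟩ := conj_normal_form rep i0 h1 hR w (htor _) _ hs2
  choose r hr using hr
  set O := pts (List.ofFn (fun i => ((s i : letters SP) : P))) with hOdef
  have hlen : O.length = n + 1 := by rw [hOdef, pts_length, List.length_ofFn]
  refine ⟨(s, fun i => r (O.get (i.cast hlen.symm))), ?_⟩
  simp only
  rw [ConjClasses.mk_eq_mk_iff_isConj]
  have : nform rep SP n (s, fun i => r (O.get (i.cast hlen.symm))) = w' := by
    apply ext'
    · intro z
      unfold nform
      by_cases hz : z ∈ O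
      · simp only
        rw [dif_pos hz]
        rw [hr z]
        congr 2
        simp only [List.get_eq_getElem, Fin.val_cast]
        exact List.getElem_idxOf (List.idxOf_lt_length_of_mem hz)
      · simp only
        rw [dif_neg hz]
        by_contra h
        exact hz (hO z (fun h' => h h'.symm))
    · rw [hp, hs1]; rfl
  rw [this]
  exact hc.symm

theorem cls_card {ι : Type} [Fintype ι] (rep : ι → A) (i0 : ι) (h1 : rep i0 = 1)
    (hR : ∀ a : A, ∃ (c : A) (i : ι), c * a * c⁻¹ = rep i) (htor : ∀ g : P, IsOfFinOrder g)
    (SP : Finset P) (n : ℕ) :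
    (cls (gen SP : Finset (Wr A P)) n).ncard ≤
      (letters SP).card ^ n * Fintype.card ι ^ (n + 1) := by
  classical
  calc _ ≤ _ := Set.ncard_le_ncard (cls_subset rep i0 h1 hR htor SP n) (Set.finite_range _)
    _ ≤ (Set.univ : Set ((Fin n → letters SP) × (Fin (n + 1) → ι))).ncard := by
        rw [← Set.image_univ]
        exact Set.ncard_image_le Set.finite_univ
    _ = _ := by
        rw [Set.ncard_univ, Nat.card_eq_fintype_card]
        simp

/-- self-avoiding lists -/
def SA (s : List P) : Prop := ∀ i j, i < j → j < s.length → (s.take i).prod ≠ (s.take j).prod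

theorem SA_tail {p : P} {s : List P} (h : SA (p :: s)) : SA s := by
  intro i j hij hj he
  refine h (i + 1) (j + 1) (by omega) (by simp; omega) ?_
  rw [List.take_succ_cons, List.take_succ_cons, List.prod_cons, List.prod_cons, he]

theorem exists_SA [Infinite P] (SP : Finset P) (hSP : Subgroup.closure (SP : Set P) = ⊤) (n : ℕ) :
    ∃ s : List P, s.length = n ∧ (∀ x ∈ s, x ∈ letters SP) ∧ SA s := by
  classical
  by_contra hcon
  push Not at hcon
  have hall : ∀ g : P, g ∈ ball SP n := by
    intro g
    have hex : ∃ m, g ∈ ball SP m := exists_ball hSP g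
    let m := Nat.find hex
    obtain ⟨l, hl, hS, hp⟩ : g ∈ ball SP m := Nat.find_spec hex
    have hlm : l.length = m := by
      refine le_antisymm hl (Nat.find_min' hex ⟨l, le_rfl, hS, hp⟩)
    have hSA : SA l := by
      intro i j hij hj he
      have h1 : g ∈ ball SP (l.take i ++ l.drop j).length := by
        refine ⟨l.take i ++ l.drop j, le_rfl, ?_, ?_⟩
        · intro x hx
          rw [List.mem_append] at hx
          rcases hx with hx | hx
          · exact hS x (List.mem_of_mem_take hx)
          · exact hS x (List.mem_of_mem_drop hx)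
        · rw [List.prod_append, he, List.prod_take_mul_prod_drop, hp]
      have h2 := Nat.find_min' hex h1
      rw [List.length_append, List.length_take, List.length_drop] at h2
      have : min i l.length = i := by omega
      rw [this] at h2
      change m ≤ _ at h2
      omega
    by_contra hg
    have hnm : n ≤ m := by
      by_contra h
      exact hg (ball_mono SP (by omega) ⟨l, hl, hS, hp⟩)
    refine hcon (l.take n) (by rw [List.length_take]; omega) ?_ ?_
    · intro x hx
      rw [mem_letters]
      exact Or.inr (hS x (List.mem_of_mem_take hx))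
    · intro i j hij hj
      rw [List.length_take] at hj
      rw [List.take_take, List.take_take, min_eq_left (by omega), min_eq_left (by omega)]
      exact hSA i j hij (by omega)
  have : (Set.univ : Set P).Finite := (ball_finite SP n).subset (fun g _ => hall g)
  exact Set.infinite_univ this

/-- the product of letters -/
noncomputable def prodL (l : List (A × P)) : Wr A P := (l.map (fun p => dl 1 p.1 p.2)).prod

omit [Fintype A] in
theorem prodL_supp (l : List (A × P)) : ∀ z, (prodL l).lamp z ≠ 1 →
    ∃ i < l.length, z = ((l.map Prod.snd).take i).prod := by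
  classical
  induction l with
  | nil => intro z hz; simp [prodL] at hz
  | cons p l ih =>
    intro z hz
    have hp : prodL (p :: l) = dl 1 p.1 p.2 * prodL l := by simp [prodL]
    rw [hp, mul_lamp] at hz
    by_cases hz1 : z = 1
    · exact ⟨0, by simp, by simp [hz1]⟩
    · rw [dl_lamp, if_neg hz1, one_mul, dl_pos] at hz
      obtain ⟨i, hi, he⟩ := ih _ hz
      refine ⟨i + 1, by simp; omega, ?_⟩
      rw [List.map_cons, List.take_succ_cons, List.prod_cons, ← he]
      simp

omit [Fintype A] in
theorem prodL_inj (l : List (A × P)) : ∀ l' : List (A × P), l.map Prod.snd = l'.map Prod.snd →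
    SA (l.map Prod.snd) → prodL l = prodL l' → l = l' := by
  classical
  induction l with
  | nil =>
    intro l' h _ _
    exact (List.map_eq_nil_iff.mp h.symm).symm
  | cons p l ih =>
    intro l' h hSA he
    cases l' with
    | nil => simp at h
    | cons p' l' =>
      rw [List.map_cons, List.map_cons, List.cons.injEq] at h
      obtain ⟨hp2, htail⟩ := h
      have hp : prodL (p :: l) = dl 1 p.1 p.2 * prodL l := by simp [prodL]
      have hp' : prodL (p' :: l') = dl 1 p'.1 p'.2 * prodL l' := by simp [prodL]
      have hlamp : ∀ (q : A × P) (k : List (A × P)), SA (q.2 :: k.map Prod.snd) →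
          (dl 1 q.1 q.2 * prodL k).lamp 1 = q.1 := by
        intro q k hk
        rw [mul_lamp, dl_lamp, if_pos rfl, dl_pos, mul_one]
        have : (prodL k).lamp q.2⁻¹ = 1 := by
          by_contra hne
          obtain ⟨i, hi, he⟩ := prodL_supp k _ hne
          refine hk 0 (i + 1) (by omega) (by simpa using hi) ?_
          rw [List.take_zero, List.prod_nil, List.take_succ_cons, List.prod_cons, ← he]
          simp
        rw [this, mul_one]
      have ha : p.1 = p'.1 := by
        have h1 := hlamp p l (by simpa using hSA)
        have h2 := hlamp p' l' (by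
          rw [List.map_cons] at hSA
          rw [← htail, ← hp2]; exact hSA)
        rw [← h1, ← h2, ← hp, ← hp', he]
      have hpp : p = p' := Prod.ext ha hp2
      subst hpp
      rw [hp, hp'] at he
      rw [ih l' htail (by rw [List.map_cons] at hSA; exact SA_tail hSA) (mul_left_cancel he)]

theorem ball_lower [Infinite P] (SP : Finset P) (hSP : Subgroup.closure (SP : Set P) = ⊤) (n : ℕ) :
    Fintype.card A ^ n ≤ (ball (gen SP : Finset (Wr A P)) n).ncard := by
  classical
  obtain ⟨s, hs, hlet, hSA⟩ := exists_SA SP hSP n
  let F : (Fin n → A) → Wr A P := fun v => prodL (List.ofFn (fun i => (v i, s.get (i.cast hs.symm))))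
  have hmap : ∀ v : Fin n → A, (List.ofFn (fun i => (v i, s.get (i.cast hs.symm)))).map Prod.snd = s := by
    intro v
    apply List.ext_get
    · simp [hs]
    · intro k h1 h2
      simp
  have hinj : Function.Injective F := by
    intro v v' h
    have := prodL_inj _ _ (by rw [hmap, hmap]) (by rw [hmap]; exact hSA) h
    have h2 := List.ofFn_injective this
    funext i
    exact (Prod.ext_iff.mp (congrFun h2 i)).1
  have hsub : Set.range F ⊆ ball (gen SP : Finset (Wr A P)) n := by
    rintro _ ⟨v, rfl⟩
    refine ⟨(List.ofFn (fun i => (v i, s.get (i.cast hs.symm)))).map (fun p => dl 1 p.1 p.2), ?_, ?_, rfl⟩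
    · simp
    · intro x hx
      rw [List.mem_map] at hx
      obtain ⟨p, hp, rfl⟩ := hx
      rw [List.mem_ofFn] at hp
      obtain ⟨i, rfl⟩ := hp
      left
      rw [mem_gen]
      exact ⟨_, _, hlet _ (List.get_mem _ _), rfl⟩
  calc Fintype.card A ^ n = (Set.range F).ncard := by
        rw [← Set.image_univ, Set.ncard_image_of_injective _ hinj, Set.ncard_univ,
          Nat.card_eq_fintype_card]
        simp
    _ ≤ _ := Set.ncard_le_ncard hsub (ball_finite _ _)

end Wr
end Pool.Agent.H374R3.CG
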