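import Mathlib
import Pool.Agent.H374R3.WrCount

set_option autoImplicit false

/-!
The lamplighter group over the integers with the generating set of all `(b, t)`.
-/

namespace Pool.Agent.H374R3.CG

open Wr

section
variable {B : Type} [CommGroup B] [Fintype B]

abbrev Z := Multiplicative ℤ

/-- the generator of the integers -/
def tt : Z := Multiplicative.ofAdd (1 : ℤ)

theorem closure_tt : Subgroup.closure ({tt} : Set Z) = ⊤ := by
  rw [eq_top_iff]
  intro z _
  rw [Subgroup.mem_closure_singleton]
  refine ⟨Multiplicative.toAdd z, ?_⟩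
  unfold tt
  rw [← ofAdd_zsmul]
  simp

open Classical in
/-- the big generating set -/
noncomputable def SK : Finset (Wr B Z) := Finset.univ.image (fun b : B => dl 1 b tt)

open Classical in
/-- the small generating set -/
noncomputable def TK (b0 : B) : Finset (Wr B Z) := {dl 1 b0 1, tr tt}

omit [Fintype B] in
theorem TK_card (b0 : B) : (TK b0).card ≤ 2 := by
  classical
  exact Finset.card_le_two

theorem mem_SK (w : Wr B Z) : w ∈ SK ↔ ∃ b : B, w = dl 1 b tt := by
  classical
  simp only [SK, Finset.mem_image, Finset.mem_univ, true_and]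
  constructor
  · rintro ⟨b, hb⟩; exact ⟨b, hb.symm⟩
  · rintro ⟨b, hb⟩; exact ⟨b, hb.symm⟩

omit [Fintype B] in
theorem dl_mul (a b : B) (p : Z) : (dl 1 a 1 : Wr B Z) * dl 1 b p = dl 1 (a * b) p := by
  classical
  apply Wr.ext'
  · intro z
    simp only [mul_lamp, dl_lamp, dl_pos, inv_one, one_mul]
    split_ifs <;> simp
  · simp

/-- the lamp at the origin -/
noncomputable def dlh : B →* Wr B Z where
  toFun b := dl 1 b 1
  map_one' := by
    classical
    apply Wr.ext'
    · intro z; simp
    · simp
  map_mul' a b := (dl_mul a b 1).symm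

theorem SK_closure : Subgroup.closure ((SK : Finset (Wr B Z)) : Set (Wr B Z)) = ⊤ := by
  classical
  have h0 : ∀ b : B, dl 1 b tt ∈ Subgroup.closure ((SK : Finset (Wr B Z)) : Set (Wr B Z)) := by
    intro b
    apply Subgroup.subset_closure
    rw [Finset.mem_coe, mem_SK]
    exact ⟨b, rfl⟩
  apply eq_top _ _ _ closure_tt
  · intro s hs
    rw [Set.mem_singleton_iff] at hs
    subst hs
    have : (tr tt : Wr B Z) = dl 1 1 tt := by
      apply Wr.ext'
      · intro z; simp
      · simp
    rw [this]
    exact h0 1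
  · intro b
    have : (dl 1 b 1 : Wr B Z) = dl 1 b tt * (dl 1 1 tt)⁻¹ := by
      rw [eq_mul_inv_iff_mul_eq, dl_mul, mul_one]
    rw [this]
    exact Subgroup.mul_mem _ (h0 b) (Subgroup.inv_mem _ (h0 1))

omit [Fintype B] in
theorem TK_closure (b0 : B) (hb0 : ∀ b : B, b ∈ Subgroup.zpowers b0) :
    Subgroup.closure ((TK b0 : Finset (Wr B Z)) : Set (Wr B Z)) = ⊤ := by
  classical
  apply eq_top _ _ _ closure_tt
  · intro s hs
    rw [Set.mem_singleton_iff] at hs
    subst hs
    apply Subgroup.subset_closure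
    simp [TK]
  · intro b
    obtain ⟨k, rfl⟩ := hb0 b
    have : (dl 1 (b0 ^ k) 1 : Wr B Z) = (dl 1 b0 1) ^ k := map_zpow dlh b0 k
    simp only
    rw [this]
    apply Subgroup.zpow_mem
    apply Subgroup.subset_closure
    simp [TK]

theorem SK_interval (l : List (Wr B Z)) (h : ∀ x ∈ l, x ∈ (SK : Finset (Wr B Z)) ∨ x⁻¹ ∈ (SK : Finset (Wr B Z))) :
    ∃ m : ℤ, m ≤ 0 ∧ 0 ≤ m + l.length ∧
      (∀ z : Z, l.prod.lamp z ≠ 1 → m ≤ Multiplicative.toAdd z ∧ Multiplicative.toAdd z < m + l.length) ∧
      m ≤ Multiplicative.toAdd l.prod.pos ∧ Multiplicative.toAdd l.prod.pos ≤ m + l.length := by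
  classical
  induction l with
  | nil =>
    refine ⟨0, le_rfl, by simp, ?_, by simp, by simp⟩
    intro z hz; simp at hz
  | cons x l ih =>
    obtain ⟨m, h1, h2, h3, h4, h5⟩ := ih (fun y hy => h y (by simp [hy]))
    rw [List.prod_cons, List.length_cons]
    push_cast
    rcases h x (by simp) with hx | hx
    · rw [mem_SK] at hx
      obtain ⟨b, rfl⟩ := hx
      refine ⟨min (m + 1) 0, by omega, by omega, ?_, ?_, ?_⟩
      · intro z hz
        rw [mul_lamp, dl_lamp, dl_pos] at hz
        by_cases hz1 : z = 1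
        · have : Multiplicative.toAdd z = 0 := by rw [hz1]; rfl
          omega
        · rw [if_neg hz1, one_mul] at hz
          have h6 := h3 _ hz
          have : Multiplicative.toAdd (tt⁻¹ * z) = -1 + Multiplicative.toAdd z := rfl
          rw [this] at h6
          omega
      · have : Multiplicative.toAdd (dl 1 b tt * l.prod).pos = 1 + Multiplicative.toAdd l.prod.pos := rfl
        rw [this]; omega
      · have : Multiplicative.toAdd (dl 1 b tt * l.prod).pos = 1 + Multiplicative.toAdd l.prod.pos := rfl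
        rw [this]; omega
    · rw [mem_SK] at hx
      obtain ⟨b, hb⟩ := hx
      have hx' : x = (dl 1 b tt)⁻¹ := by rw [← hb, inv_inv]
      subst hx'
      refine ⟨m - 1, by omega, by omega, ?_, ?_, ?_⟩
      · intro z hz
        rw [mul_lamp, inv_lamp, dl_lamp, dl_pos, inv_pos', dl_pos, inv_inv] at hz
        by_cases hz1 : tt * z = 1
        · have : Multiplicative.toAdd (tt * z) = 1 + Multiplicative.toAdd z := rfl
          have h6 : Multiplicative.toAdd (tt * z) = 0 := by rw [hz1]; rfl
          rw [this] at h6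
          omega
        · rw [if_neg hz1, inv_one, one_mul] at hz
          have h6 := h3 _ hz
          have : Multiplicative.toAdd (tt * z) = 1 + Multiplicative.toAdd z := rfl
          rw [this] at h6
          omega
      · have : Multiplicative.toAdd ((dl 1 b tt : Wr B Z)⁻¹ * l.prod).pos = -1 + Multiplicative.toAdd l.prod.pos := rfl
        rw [this]; omega
      · have : Multiplicative.toAdd ((dl 1 b tt : Wr B Z)⁻¹ * l.prod).pos = -1 + Multiplicative.toAdd l.prod.pos := rfl
        rw [this]; omega

/-- parametrization of the ball -/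
def parK (n : ℕ) (p : Fin (n + 1) × (Fin n → B) × Fin (2 * n + 1)) : Wr B Z :=
  ⟨fun z => if h : 0 ≤ Multiplicative.toAdd z + (p.1 : ℤ) ∧ Multiplicative.toAdd z + (p.1 : ℤ) < n then
      p.2.1 ⟨(Multiplicative.toAdd z + (p.1 : ℤ)).toNat, by omega⟩ else 1, by
    have hf : (Multiplicative.toAdd ⁻¹' (Set.Ico (-(p.1 : ℤ)) (n - (p.1 : ℤ))) : Set Z).Finite :=
      (Set.finite_Ico _ _).preimage Multiplicative.toAdd.injective.injOn
    refine hf.subset ?_
    intro z hz
    by_contra hc
    apply hz
    apply dif_neg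
    intro h
    apply hc
    rw [Set.mem_preimage, Set.mem_Ico]
    omega, Multiplicative.ofAdd ((p.2.2 : ℤ) - n)⟩

theorem SK_ball_subset (n : ℕ) : ball (SK : Finset (Wr B Z)) n ⊆ Set.range (parK n) := by
  classical
  rintro w ⟨l, hl, hS, rfl⟩
  obtain ⟨m, h1, h2, h3, h4, h5⟩ := SK_interval l hS
  refine ⟨(⟨(-m).toNat, by omega⟩, fun i => l.prod.lamp (Multiplicative.ofAdd (m + (i : ℤ))),
    ⟨(Multiplicative.toAdd l.prod.pos + n).toNat, by omega⟩), ?_⟩
  apply Wr.ext'
  · intro z
    simp only [parK]
    split_ifs with h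
    · congr 1
      rw [← Multiplicative.toAdd.injective.eq_iff, toAdd_ofAdd]
      omega
    · by_contra hne
      have := h3 z (fun h' => hne h'.symm)
      apply h
      omega
  · simp only [parK]
    rw [← Multiplicative.toAdd.injective.eq_iff, toAdd_ofAdd]
    omega

theorem SK_ball_card (n : ℕ) : (ball (SK : Finset (Wr B Z)) n).ncard ≤
    (n + 1) * (Fintype.card B ^ n * (2 * n + 1)) := by
  classical
  calc _ ≤ _ := Set.ncard_le_ncard (SK_ball_subset n) (Set.finite_range _)
    _ ≤ (Set.univ : Set (Fin (n + 1) × (Fin n → B) × Fin (2 * n + 1))).ncard := by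
        rw [← Set.image_univ]
        exact Set.ncard_image_le Set.finite_univ
    _ = _ := by
        rw [Set.ncard_univ, Nat.card_eq_fintype_card]
        simp

omit [Fintype B] in
theorem prodL_lamp (l : List B) : ∀ z : Z, (prodL (l.map (fun b => (b, tt)))).lamp z =
    if Multiplicative.toAdd z < 0 then 1 else l.getD (Multiplicative.toAdd z).toNat 1 := by
  classical
  induction l with
  | nil => intro z; simp [prodL]
  | cons b l ih =>
    intro z
    have hp : prodL ((b :: l).map (fun b => (b, tt))) =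
        dl 1 b tt * prodL (l.map (fun b => (b, tt))) := by simp [prodL]
    rw [hp, mul_lamp, ih, dl_lamp, dl_pos]
    have e1 : Multiplicative.toAdd (tt⁻¹ * z) = -1 + Multiplicative.toAdd z := rfl
    have e2 : z = 1 ↔ Multiplicative.toAdd z = 0 := by
      rw [← Multiplicative.toAdd.injective.eq_iff]; rfl
    rw [e1]
    rcases lt_trichotomy (Multiplicative.toAdd z) 0 with h | h | h
    · rw [if_neg (by rw [e2]; omega), if_pos (by omega), if_pos h, mul_one]
    · rw [if_pos (by rw [e2]; exact h), if_pos (by omega), if_neg (by omega), mul_one, h]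
      rfl
    · rw [if_neg (by rw [e2]; omega), if_neg (by omega), if_neg (by omega), one_mul]
      have : (Multiplicative.toAdd z).toNat = (-1 + Multiplicative.toAdd z).toNat + 1 := by omega
      rw [this, List.getD_cons_succ]

omit [Fintype B] in
theorem prodL_pos (l : List B) : Multiplicative.toAdd (prodL (l.map (fun b => (b, tt)))).pos = l.length := by
  induction l with
  | nil => simp [prodL]
  | cons b l ih =>
    have hp : prodL ((b :: l).map (fun b => (b, tt))) =
        dl 1 b tt * prodL (l.map (fun b => (b, tt))) := by simp [prodL]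
    rw [hp, mul_pos', toAdd_mul, ih, dl_pos, List.length_cons]
    simp only [tt, toAdd_ofAdd]
    push_cast
    ring

/-- the elements with full lamps -/
noncomputable def gv (n : ℕ) (v : Fin n → B) : Wr B Z := prodL ((List.ofFn v).map (fun b => (b, tt)))

theorem gv_mem (n : ℕ) (v : Fin n → B) : gv n v ∈ ball (SK : Finset (Wr B Z)) n := by
  refine ⟨((List.ofFn v).map (fun b => (b, tt))).map (fun p => dl 1 p.1 p.2), by simp, ?_, rfl⟩
  intro x hx
  left
  rw [mem_SK]
  rw [List.map_map, List.mem_map] at hx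
  obtain ⟨b, -, rfl⟩ := hx
  exact ⟨b, rfl⟩

/-- the extension of `v` by `1` -/
def Fv (n : ℕ) (v : Fin n → B) (i : ℤ) : B :=
  if h : 0 ≤ i ∧ i < n then v ⟨i.toNat, by omega⟩ else 1

omit [Fintype B] in
theorem gv_lamp (n : ℕ) (v : Fin n → B) (z : Z) : (gv n v).lamp z = Fv n v (Multiplicative.toAdd z) := by
  unfold gv
  rw [prodL_lamp]
  unfold Fv
  by_cases h0 : Multiplicative.toAdd z < 0
  · rw [if_pos h0, dif_neg (by omega)]
  · rw [if_neg h0]
    by_cases h1 : Multiplicative.toAdd z < n
    · rw [dif_pos ⟨by omega, h1⟩, List.getD_eq_getElem _ _ (by rw [List.length_ofFn]; omega)]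
      simp
    · rw [dif_neg (by omega), List.getD_eq_default _ _ (by rw [List.length_ofFn]; omega)]

omit [Fintype B] in
theorem gv_pos (n : ℕ) (v : Fin n → B) : (gv n v).pos = Multiplicative.ofAdd (n : ℤ) := by
  unfold gv
  rw [← Multiplicative.toAdd.injective.eq_iff, prodL_pos]
  simp

omit [Fintype B] in
theorem Fv_ne {n : ℕ} {v : Fin n → B} {i : ℤ} (h : Fv n v i ≠ 1) : 0 ≤ i ∧ i < n := by
  by_contra hc
  exact h (dif_neg hc)

/-- rotation -/
def rot (n : ℕ) (c : Fin n) (v : Fin n → B) : Fin n → B := fun i =>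
  v ⟨(((i : ℤ) - (c : ℤ)) % n).toNat, by
    have hn : (0 : ℤ) < n := by have := c.2; omega
    have h1 := Int.emod_nonneg ((i : ℤ) - (c : ℤ)) hn.ne'
    have h2 := Int.emod_lt_of_pos ((i : ℤ) - (c : ℤ)) hn
    omega⟩

omit [Fintype B] in
theorem conj_rot {n : ℕ} (hn : 0 < n) {v v' : Fin n → B} (h : IsConj (gv n v) (gv n v')) :
    ∃ c : Fin n, v' = rot n c v := by
  classical
  rw [isConj_iff] at h
  obtain ⟨w, hw⟩ := h
  rw [mul_inv_eq_iff_eq_mul] at hw
  have hnz : (0 : ℤ) < n := by exact_mod_cast hn
  set j : ℤ := Multiplicative.toAdd w.pos with hj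
  let H : ℤ → B := fun i => w.lamp (Multiplicative.ofAdd i)
  have hHfin : (Function.mulSupport H).Finite := by
    have : Function.mulSupport H = Multiplicative.ofAdd ⁻¹' Function.mulSupport w.lamp := rfl
    rw [this]
    exact w.fin.preimage Multiplicative.ofAdd.injective.injOn
  have hFfin : ∀ u : Fin n → B, (Function.mulSupport (Fv n u)).Finite := by
    intro u
    refine (Set.finite_Ico (0 : ℤ) n).subset ?_
    intro i hi
    exact Fv_ne hi
  have key : ∀ i : ℤ, H i * Fv n v (i - j) = Fv n v' i * H (i - n) := by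
    intro i
    have := congrArg (fun u => u.lamp (Multiplicative.ofAdd i)) hw
    simp only [mul_lamp, gv_lamp, gv_pos] at this
    have e1 : Multiplicative.toAdd (w.pos⁻¹ * Multiplicative.ofAdd i) = i - j := by
      rw [toAdd_mul, toAdd_inv, toAdd_ofAdd]; ring
    have e2 : ((Multiplicative.ofAdd (n : ℤ))⁻¹ * Multiplicative.ofAdd i : Z) = Multiplicative.ofAdd (i - n) := by
      rw [← Multiplicative.toAdd.injective.eq_iff, toAdd_mul, toAdd_inv, toAdd_ofAdd, toAdd_ofAdd,
        toAdd_ofAdd]
      ring
    rw [e1, e2, toAdd_ofAdd] at this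
    exact this
  have hinjk : ∀ i : ℤ, Function.Injective (fun k : ℤ => i + k * n) := by
    intro i k k' h
    have h' : i + k * n = i + k' * n := h
    have h'' : k * (n : ℤ) = k' * n := by linarith
    exact mul_right_cancel₀ hnz.ne' h''
  have hfin : ∀ (f : ℤ → B) (i : ℤ), (Function.mulSupport f).Finite →
      (Function.mulSupport (fun k : ℤ => f (i + k * n))).Finite := by
    intro f i hf
    have : Function.mulSupport (fun k : ℤ => f (i + k * n)) =
      (fun k : ℤ => i + k * n) ⁻¹' Function.mulSupport f := rfl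
    rw [this]
    exact hf.preimage (hinjk i).injOn
  have hprod : ∀ i : ℤ, ∏ᶠ k : ℤ, Fv n v (i - j + k * n) = ∏ᶠ k : ℤ, Fv n v' (i + k * n) := by
    intro i
    have h1 : ∏ᶠ k : ℤ, (H (i + k * n) * Fv n v (i - j + k * n)) =
        ∏ᶠ k : ℤ, (Fv n v' (i + k * n) * H (i - n + k * n)) := by
      apply finprod_congr
      intro k
      have := key (i + k * n)
      rw [show i + k * n - j = i - j + k * n by ring, show i + k * n - n = i - n + k * n by ring] at this
      exact this
    rw [finprod_mul_distrib (hfin H i hHfin) (hfin _ _ (hFfin v)),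
      finprod_mul_distrib (hfin _ _ (hFfin v')) (hfin H _ hHfin)] at h1
    have h2 : ∏ᶠ k : ℤ, H (i - n + k * n) = ∏ᶠ k : ℤ, H (i + k * n) := by
      rw [← finprod_comp_equiv (Equiv.subRight (1 : ℤ)) (f := fun k : ℤ => H (i + k * n))]
      apply finprod_congr
      intro k
      simp only [Equiv.subRight_apply]
      congr 1
      ring
    rw [h2, mul_comm] at h1
    exact mul_right_cancel h1
  have hmain : ∀ i : ℤ, 0 ≤ i → i < n → Fv n v' i = Fv n v ((i - j) % n) := by
    intro i hi0 hin
    have h1 := hprod i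
    rw [finprod_eq_single (fun k : ℤ => Fv n v' (i + k * n)) 0 (by
      intro k hk
      by_contra hne
      have h2 := Fv_ne hne
      rcases lt_trichotomy k 0 with h3 | h3 | h3
      · have : k * (n : ℤ) ≤ -1 * n := mul_le_mul_of_nonneg_right (by omega) hnz.le
        omega
      · exact hk h3
      · have : 1 * (n : ℤ) ≤ k * n := mul_le_mul_of_nonneg_right (by omega) hnz.le
        omega)] at h1
    rw [finprod_eq_single (fun k : ℤ => Fv n v (i - j + k * n)) (-((i - j) / n)) (by
      intro k hk
      by_contra hne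
      have h2 := Fv_ne hne
      apply hk
      have h4 : (i - j + k * n) / n = 0 := Int.ediv_eq_zero_of_lt h2.1 h2.2
      rw [Int.add_mul_ediv_right _ _ hnz.ne'] at h4
      linarith)] at h1
    simp only [zero_mul, add_zero] at h1
    rw [← h1]
    congr 1
    have := Int.emod_add_mul_ediv (i - j) n
    linarith
  refine ⟨⟨(j % n).toNat, by
    have h1 := Int.emod_nonneg j hnz.ne'
    have h2 := Int.emod_lt_of_pos j hnz
    omega⟩, ?_⟩
  funext i
  have h1 := hmain i (by omega) (by have := i.2; omega)
  have e1 : Fv n v' (i : ℤ) = v' i := by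
    unfold Fv
    rw [dif_pos ⟨by omega, by have := i.2; omega⟩]
    congr 1
  have h2 := Int.emod_nonneg ((i : ℤ) - j) hnz.ne'
  have h3 := Int.emod_lt_of_pos ((i : ℤ) - j) hnz
  rw [e1] at h1
  rw [h1]
  unfold Fv
  rw [dif_pos ⟨h2, h3⟩]
  unfold rot
  congr 2
  simp only
  rw [Int.toNat_of_nonneg (Int.emod_nonneg j hnz.ne')]
  have h6 : ((i : ℤ) - j) % n = ((i : ℤ) - j % n) % n := by
    rw [Int.sub_emod, Int.sub_emod (i : ℤ) (j % n)]; simp
  rw [h6]

theorem SK_cls_lower {n : ℕ} (hn : 0 < n) :
    Fintype.card B ^ n ≤ n * (cls (SK : Finset (Wr B Z)) n).ncard := by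
  classical
  have h1 : (Finset.univ : Finset (Fin n → B)).card ≤
      n * ((Finset.univ : Finset (Fin n → B)).image (fun v => ConjClasses.mk (gv n v))).card := by
    apply Finset.card_le_mul_card_image
    intro κ hκ
    rw [Finset.mem_image] at hκ
    obtain ⟨v, -, rfl⟩ := hκ
    have hsub : (Finset.univ.filter (fun v' : Fin n → B => ConjClasses.mk (gv n v') = ConjClasses.mk (gv n v))) ⊆
        (Finset.univ : Finset (Fin n)).image (fun c => rot n c v) := by
      intro v' hv'
      rw [Finset.mem_filter] at hv'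
      rw [Finset.mem_image]
      obtain ⟨c, hc⟩ := conj_rot hn (ConjClasses.mk_eq_mk_iff_isConj.mp hv'.2).symm
      exact ⟨c, Finset.mem_univ _, hc.symm⟩
    calc _ ≤ _ := Finset.card_le_card hsub
      _ ≤ (Finset.univ : Finset (Fin n)).card := Finset.card_image_le
      _ = n := by simp
  have h2 : ((Finset.univ : Finset (Fin n → B)).image (fun v => ConjClasses.mk (gv n v))).card ≤
      (cls (SK : Finset (Wr B Z)) n).ncard := by
    rw [← Set.ncard_coe_finset]
    apply Set.ncard_le_ncard _ (cls_finite _ _)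
    intro κ hκ
    rw [Finset.mem_coe, Finset.mem_image] at hκ
    obtain ⟨v, -, rfl⟩ := hκ
    exact ⟨gv n v, gv_mem n v, rfl⟩
  calc Fintype.card B ^ n = (Finset.univ : Finset (Fin n → B)).card := by simp
    _ ≤ _ := h1
    _ ≤ _ := Nat.mul_le_mul_left _ h2

end

end Pool.Agent.H374R3.CG
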