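import Mathlib
import Pool.Agent.H374R3.LampZ
import Pool.Agent.Helper475.Torsion

set_option autoImplicit false

/-!
Equality of conjugacy and standard growth rates depends on the generating set.
-/

namespace Pool.Agent.H374R3.CG

open Filter Topology Wr

theorem tendsto_poly (C r : ℝ) (hC : 0 < C) (hr : 0 < r) (d : ℕ) :
    Tendsto (fun n : ℕ => (C * ((n : ℝ) + 1) ^ d * r ^ n) ^ ((1 : ℝ) / (n : ℝ))) atTop (𝓝 r) := by
  have h1 : Tendsto (fun n : ℕ => C ^ ((1 : ℝ) / (n : ℝ))) atTop (𝓝 1) := by
    have : Tendsto (fun n : ℕ => (1 : ℝ) / (n : ℝ)) atTop (𝓝 0) := tendsto_const_div_atTop_nhds_zero_nat 1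
    have h := (tendsto_const_nhds (x := C)).rpow this (Or.inl hC.ne')
    rwa [Real.rpow_zero] at h
  have h2 : Tendsto (fun n : ℕ => ((n : ℝ) + 1) ^ ((1 : ℝ) / (n : ℝ))) atTop (𝓝 1) := by
    have h := (tendsto_rpow_div_mul_add 1 1 (-1) (by norm_num)).comp
      (tendsto_atTop_add_const_right atTop (1 : ℝ) (tendsto_natCast_atTop_atTop (R := ℝ)))
    refine h.congr' ?_
    filter_upwards with n
    simp only [Function.comp]
    congr 2
    ring
  have h3 : Tendsto (fun n : ℕ => (((n : ℝ) + 1) ^ ((1 : ℝ) / (n : ℝ))) ^ d) atTop (𝓝 1) := by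
    have := h2.pow d
    rwa [one_pow] at this
  have h4 := (h1.mul h3).mul_const r
  rw [one_mul, one_mul] at h4
  refine h4.congr' ?_
  filter_upwards [eventually_ge_atTop 1] with n hn
  have hn0 : (0 : ℝ) < n := by exact_mod_cast hn
  have hn1 : (0 : ℝ) < (n : ℝ) + 1 := by linarith
  rw [Real.mul_rpow (by positivity) (by positivity), Real.mul_rpow hC.le (by positivity)]
  congr 1
  · congr 1
    rw [← Real.rpow_natCast, ← Real.rpow_natCast, ← Real.rpow_mul hn1.le, ← Real.rpow_mul hn1.le]
    congr 1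
    ring
  · rw [← Real.rpow_natCast, ← Real.rpow_mul hr.le]
    rw [mul_one_div_cancel hn0.ne', Real.rpow_one]

theorem limsup_le_of_poly {f : ℕ → ℕ} (C r : ℝ) (hC : 0 < C) (hr : 0 < r) (d : ℕ)
    (h : ∀ n, (f n : ℝ) ≤ C * ((n : ℝ) + 1) ^ d * r ^ n) :
    limsup (fun n : ℕ => (f n : ℝ) ^ ((1 : ℝ) / (n : ℝ))) atTop ≤ r := by
  rw [← (tendsto_poly C r hC hr d).limsup_eq]
  apply limsup_le_limsup
  · filter_upwards with n
    exact Real.rpow_le_rpow (by positivity) (h n) (by positivity)
  · exact IsBoundedUnder.isCoboundedUnder_le ⟨0, by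
      simp only [eventually_map]
      filter_upwards with n
      positivity⟩
  · exact (tendsto_poly C r hC hr d).isBoundedUnder_le

theorem bdd_of_poly {f : ℕ → ℕ} (C r : ℝ) (hC : 0 < C) (hr : 0 < r) (d : ℕ)
    (h : ∀ n, (f n : ℝ) ≤ C * ((n : ℝ) + 1) ^ d * r ^ n) :
    IsBoundedUnder (· ≤ ·) atTop (fun n : ℕ => (f n : ℝ) ^ ((1 : ℝ) / (n : ℝ))) := by
  apply IsBoundedUnder.mono_le (tendsto_poly C r hC hr d).isBoundedUnder_le
  filter_upwards with n
  exact Real.rpow_le_rpow (by positivity) (h n) (by positivity)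

/-- lower bound for the upper limit -/
theorem le_limsup_of_poly {f : ℕ → ℕ} (r : ℝ) (hr : 0 < r) (d : ℕ)
    (hb : IsBoundedUnder (· ≤ ·) atTop (fun n : ℕ => (f n : ℝ) ^ ((1 : ℝ) / (n : ℝ))))
    (h : ∀ n : ℕ, 0 < n → r ^ n ≤ ((n : ℝ) + 1) ^ d * (f n : ℝ)) :
    r ≤ limsup (fun n : ℕ => (f n : ℝ) ^ ((1 : ℝ) / (n : ℝ))) atTop := by
  have h1 := tendsto_poly 1 1 one_pos one_pos d
  have h2 : Tendsto (fun n : ℕ => r / (1 * ((n : ℝ) + 1) ^ d * 1 ^ n) ^ ((1 : ℝ) / (n : ℝ))) atTop (𝓝 r) := by
    have := (tendsto_const_nhds (x := r)).div h1 one_ne_zero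
    rw [div_one] at this
    exact this
  calc r = limsup (fun n : ℕ => r / (1 * ((n : ℝ) + 1) ^ d * 1 ^ n) ^ ((1 : ℝ) / (n : ℝ))) atTop :=
        h2.limsup_eq.symm
    _ ≤ _ := by
        apply limsup_le_limsup
        · filter_upwards [eventually_ge_atTop 1] with n hn
          have hn0 : (0 : ℝ) < n := by exact_mod_cast hn
          have hn1 : (0 : ℝ) < (n : ℝ) + 1 := by linarith
          rw [div_le_iff₀ (by positivity), ← Real.mul_rpow (by positivity) (by positivity)]
          calc r = (r ^ n) ^ ((1 : ℝ) / (n : ℝ)) := by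
                rw [← Real.rpow_natCast, ← Real.rpow_mul hr.le, mul_one_div_cancel hn0.ne', Real.rpow_one]
            _ ≤ _ := by
                apply Real.rpow_le_rpow (by positivity) _ (by positivity)
                have := h n hn
                simp only [one_mul, one_pow, mul_one]
                linarith
        · exact h2.isCoboundedUnder_le
        · exact hb

/-- class representatives in the symmetric group on three letters -/
def r3 (i : Fin 3) : Equiv.Perm (Fin 3) :=
  if i = 0 then 1 else if i = 1 then Equiv.swap 0 1 else finRotate 3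

theorem r3_spec : ∀ σ : Equiv.Perm (Fin 3), ∃ (c : Equiv.Perm (Fin 3)) (i : Fin 3), c * σ * c⁻¹ = r3 i := by
  decide

theorem rep_spec (m : ℕ) (a : Fin m → Equiv.Perm (Fin 3)) :
    ∃ (c : Fin m → Equiv.Perm (Fin 3)) (i : Fin m → Fin 3), c * a * c⁻¹ = fun k => r3 (i k) := by
  choose c i hc using fun k => r3_spec (a k)
  exact ⟨c, i, funext hc⟩

theorem main : ∃ (G : Type) (_ : Group G) (S T : Finset G), Subgroup.closure (S : Set G) = ⊤ ∧
    Subgroup.closure (T : Set G) = ⊤ ∧ gam S = alpha S ∧ gam T ≠ alpha T := by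
  classical
  obtain ⟨P, hP, SP, hSP, hinf, htor⟩ := Pool.Agent.Helper475.Torsion.exists_inf_torsion
  set L := (letters SP).card with hL
  let m := L + 5
  let A := Fin m → Equiv.Perm (Fin 3)
  have hcA : Fintype.card A = 6 ^ m := by
    simp [A, Fintype.card_perm]
    rfl
  let W := Wr A P
  let SW : Finset W := gen SP
  have hSW : Subgroup.closure (SW : Set W) = ⊤ := gen_closure SP hSP
  let ρ : ℕ := 2 * (6 ^ m * L) + 1
  have hρ0 : 0 < ρ := by omega
  have : NeZero ρ := ⟨hρ0.ne'⟩
  let B := Multiplicative (ZMod ρ)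
  have hcB : Fintype.card B = ρ := by
    have : Fintype.card B = Fintype.card (ZMod ρ) := Fintype.card_congr Multiplicative.toAdd
    rw [this, ZMod.card]
  let K := Wr B Z
  let b0 : B := Multiplicative.ofAdd (1 : ZMod ρ)
  have hb0 : ∀ b : B, b ∈ Subgroup.zpowers b0 := by
    intro b
    rw [Subgroup.mem_zpowers_iff]
    refine ⟨((Multiplicative.toAdd b : ZMod ρ).val : ℤ), ?_⟩
    rw [zpow_natCast]
    show Multiplicative.ofAdd (1 : ZMod ρ) ^ _ = b
    rw [← ofAdd_nsmul, nsmul_eq_mul, mul_one, ZMod.natCast_val, ZMod.cast_id]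
    rfl
  let S : Finset (W × K) := prodSet SW SK
  let T : Finset (W × K) := prodSet SW (TK b0)
  have hrep1 : (fun k : Fin m => r3 ((fun _ => 0 : Fin m → Fin 3) k)) = (1 : A) := by
    funext k; simp only [r3, if_true]; rfl
  -- bounds
  have hWcls : ∀ n, (cls SW n).ncard ≤ L ^ n * (3 ^ m) ^ (n + 1) := by
    intro n
    have := cls_card (A := A) (P := P) (fun i : Fin m → Fin 3 => fun k => r3 (i k)) (fun _ => 0) hrep1
      (rep_spec m) htor SP n
    simpa using this
  have hWball : ∀ n, (ball SW n).ncard ≤ ρ ^ n := by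
    intro n
    refine (ball_card SW n).trans (Nat.pow_le_pow_left ?_ n)
    have h1 := gen_card (A := A) (P := P) SP
    rw [hcA] at h1
    show 2 * SW.card + 1 ≤ 2 * (6 ^ m * L) + 1
    have : SW.card ≤ 6 ^ m * L := h1
    omega
  have hWlow : ∀ n, (6 ^ m) ^ n ≤ (ball SW n).ncard := by
    intro n
    have := ball_lower (A := A) (P := P) SP hSP n
    rwa [hcA] at this
  have hKT : ∀ n, (ball (TK b0) n).ncard ≤ 5 ^ n := by
    intro n
    refine (ball_card (TK b0) n).trans (Nat.pow_le_pow_left ?_ n)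
    have := TK_card b0
    omega
  have hKS : ∀ n, (ball (SK : Finset K) n).ncard ≤ (n + 1) * (ρ ^ n * (2 * n + 1)) := by
    intro n
    have := SK_ball_card (B := B) n
    rwa [hcB] at this
  have hKcls : ∀ n, 0 < n → ρ ^ n ≤ n * (cls (SK : Finset K) n).ncard := by
    intro n hn
    have := SK_cls_lower (B := B) hn
    rwa [hcB] at this
  refine ⟨W × K, inferInstance, S, T, prodSet_closure _ _ hSW SK_closure,
    prodSet_closure _ _ hSW (TK_closure b0 hb0), ?_, ?_⟩
  · -- equality for S
    have hup : ∀ n, ((ball S n).ncard : ℝ) ≤ 2 * ((n : ℝ) + 1) ^ 3 * (ρ : ℝ) ^ n := by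
      intro n
      have h1 : (ball S n).ncard ≤ 2 * (n + 1) ^ 3 * ρ ^ n := by
        calc (ball S n).ncard ≤ ∑ i ∈ Finset.range (n + 1), (ball SW i).ncard * (ball SK (n - i)).ncard :=
              ball_prod_card SW SK n
          _ ≤ ∑ i ∈ Finset.range (n + 1), (n + 1) * (ρ ^ n * (2 * n + 1)) := by
              apply Finset.sum_le_sum
              intro i hi
              rw [Finset.mem_range] at hi
              calc (ball SW i).ncard * (ball SK (n - i)).ncard
                  ≤ ρ ^ i * ((n - i + 1) * (ρ ^ (n - i) * (2 * (n - i) + 1))) :=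
                    Nat.mul_le_mul (hWball i) (hKS (n - i))
                _ = (n - i + 1) * (ρ ^ (i + (n - i)) * (2 * (n - i) + 1)) := by rw [pow_add]; ring
                _ = (n - i + 1) * (ρ ^ n * (2 * (n - i) + 1)) := by
                    rw [Nat.add_sub_cancel' (by omega)]
                _ ≤ _ := by
                    apply Nat.mul_le_mul (by omega)
                    apply Nat.mul_le_mul le_rfl (by omega)
          _ = (n + 1) * ((n + 1) * (ρ ^ n * (2 * n + 1))) := by
              rw [Finset.sum_const, Finset.card_range, smul_eq_mul]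
          _ ≤ (n + 1) * ((n + 1) * (ρ ^ n * (2 * (n + 1)))) := by
              apply Nat.mul_le_mul le_rfl
              apply Nat.mul_le_mul le_rfl
              apply Nat.mul_le_mul le_rfl (by omega)
          _ = 2 * (n + 1) ^ 3 * ρ ^ n := by ring
      exact_mod_cast h1
    have hρr : (0 : ℝ) < ρ := by exact_mod_cast hρ0
    have hupc : ∀ n, ((cls S n).ncard : ℝ) ≤ 2 * ((n : ℝ) + 1) ^ 3 * (ρ : ℝ) ^ n := by
      intro n
      refine le_trans ?_ (hup n)
      exact_mod_cast cls_card_le S n
    have h1 : alpha S ≤ ρ := limsup_le_of_poly 2 ρ (by norm_num) hρr 3 hup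
    have h2 : (ρ : ℝ) ≤ gam S := by
      apply le_limsup_of_poly (ρ : ℝ) hρr 1 (bdd_of_poly 2 ρ (by norm_num) hρr 3 hupc)
      intro n hn
      have h3 := hKcls n hn
      have h4 := cls_right_card SW (SK : Finset K) n
      have h5 : ρ ^ n ≤ (n + 1) * (cls S n).ncard := by
        calc ρ ^ n ≤ n * (cls (SK : Finset K) n).ncard := h3
          _ ≤ (n + 1) * (cls S n).ncard := Nat.mul_le_mul (by omega) h4
      rw [pow_one]
      exact_mod_cast h5
    have h3 : gam S ≤ alpha S := by
      apply limsup_le_limsup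
      · filter_upwards with n
        apply Real.rpow_le_rpow (by positivity) _ (by positivity)
        exact_mod_cast cls_card_le S n
      · exact IsBoundedUnder.isCoboundedUnder_le ⟨0, by
          simp only [eventually_map]
          filter_upwards with n
          positivity⟩
      · exact bdd_of_poly 2 ρ (by norm_num) hρr 3 hup
    exact le_antisymm h3 (h1.trans h2)
  · -- inequality for T
    apply ne_of_lt
    let r : ℕ := (L + 5) * 3 ^ m
    have hr0 : (0 : ℝ) < (r : ℝ) := by
      have : 0 < r := by positivity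
      exact_mod_cast this
    have hrlt : r < 6 ^ m := by
      show (L + 5) * 3 ^ m < 6 ^ m
      have h1 : L + 5 < 2 ^ m := Nat.lt_two_pow_self
      calc (L + 5) * 3 ^ m < 2 ^ m * 3 ^ m := Nat.mul_lt_mul_of_pos_right h1 (by positivity)
        _ = 6 ^ m := by rw [← Nat.mul_pow]
    have hupc : ∀ n, ((cls T n).ncard : ℝ) ≤ (3 : ℝ) ^ m * ((n : ℝ) + 1) ^ 1 * (r : ℝ) ^ n := by
      intro n
      have h1 : (cls T n).ncard ≤ 3 ^ m * (n + 1) ^ 1 * r ^ n := by
        calc (cls T n).ncard ≤ ∑ i ∈ Finset.range (n + 1), (cls SW i).ncard * (ball (TK b0) (n - i)).ncard :=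
              cls_prod_card SW (TK b0) n
          _ ≤ ∑ i ∈ Finset.range (n + 1), 3 ^ m * r ^ n := by
              apply Finset.sum_le_sum
              intro i hi
              rw [Finset.mem_range] at hi
              calc (cls SW i).ncard * (ball (TK b0) (n - i)).ncard
                  ≤ (L ^ i * (3 ^ m) ^ (i + 1)) * 5 ^ (n - i) := Nat.mul_le_mul (hWcls i) (hKT (n - i))
                _ = 3 ^ m * ((L * 3 ^ m) ^ i * 5 ^ (n - i)) := by rw [Nat.mul_pow]; ring
                _ ≤ 3 ^ m * (r ^ i * r ^ (n - i)) := by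
                    apply Nat.mul_le_mul le_rfl
                    apply Nat.mul_le_mul
                    · apply Nat.pow_le_pow_left
                      exact Nat.mul_le_mul (by omega) le_rfl
                    · apply Nat.pow_le_pow_left
                      show 5 ≤ (L + 5) * 3 ^ m
                      have : 1 ≤ 3 ^ m := Nat.one_le_pow _ _ (by norm_num)
                      nlinarith
                _ = 3 ^ m * r ^ n := by rw [← pow_add, Nat.add_sub_cancel' (by omega)]
          _ = 3 ^ m * (n + 1) ^ 1 * r ^ n := by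
              rw [Finset.sum_const, Finset.card_range, smul_eq_mul]; ring
      exact_mod_cast h1
    have h1 : gam T ≤ r := limsup_le_of_poly ((3 : ℝ) ^ m) r (by positivity) hr0 1 hupc
    have h2 : ((6 ^ m : ℕ) : ℝ) ≤ alpha T := by
      apply le_limsup_of_poly ((6 ^ m : ℕ) : ℝ) (by positivity) 0
      · apply bdd_of_poly 1 ((2 * T.card + 1 : ℕ) : ℝ) one_pos (by positivity) 0
        intro n
        rw [pow_zero, one_mul, one_mul]
        exact_mod_cast ball_card T n
      · intro n _
        rw [pow_zero, one_mul]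
        have h3 := hWlow n
        have h4 := ball_left_card SW (TK b0) n
        exact_mod_cast h3.trans h4
    calc gam T ≤ r := h1
      _ < ((6 ^ m : ℕ) : ℝ) := by exact_mod_cast hrlt
      _ ≤ _ := h2

end Pool.Agent.H374R3.CG
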