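import Mathlib

set_option autoImplicit false

/-!
The subgroup `H = ⟨x^i y x^{-i} : i ≥ 1⟩` of the free group on `x, y`, and the monoid embedding of
`H * ℕ` sending the free generator to `y`.
-/

namespace Pool.Agent.H374R3.Gap

/-- the free group on `x = of false`, `y = of true` -/
abbrev F := FreeGroup Bool

/-- the generator `x` -/
def x : F := FreeGroup.of false
/-- the generator `y` -/
def y : F := FreeGroup.of true

/-- `y_i = x^i y x^{-i}` -/
def yi (i : ℤ) : F := x ^ i * y * (x ^ i)⁻¹

/-- the subgroup generated by the `y_i`, `i ≥ 1` -/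
def H : Subgroup F := Subgroup.closure {g : F | ∃ i : ℤ, 1 ≤ i ∧ g = yi i}

theorem yi_mem {i : ℤ} (hi : 1 ≤ i) : yi i ∈ H := Subgroup.subset_closure ⟨i, hi, rfl⟩

theorem H_ne_bot : H ≠ ⊥ := by
  intro h
  have h1 : yi 1 ∈ H := yi_mem le_rfl
  rw [h, Subgroup.mem_bot] at h1
  unfold yi at h1
  have h2 : y = 1 := by
    have := congrArg (fun z => (x ^ (1 : ℤ))⁻¹ * z * x ^ (1 : ℤ)) h1
    simpa [mul_assoc] using this
  exact FreeGroup.of_ne_one true h2

/-- the permutations of `ℤ × F` attached to the levels -/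
def rho (i : ℤ) : Equiv.Perm (ℤ × F) :=
  if i = 0 then Equiv.prodShear (Equiv.addRight (1 : ℤ)) (fun _ => Equiv.refl F)
  else if 1 ≤ i then
    Equiv.prodShear (Equiv.refl ℤ) (fun j => if j = 0 then Equiv.mulLeft (yi i) else Equiv.refl F)
  else Equiv.refl _

/-- the action of `x` -/
def actX : Equiv.Perm (ℤ × (ℤ × F)) :=
  Equiv.prodShear (Equiv.addRight (-1 : ℤ)) (fun _ => Equiv.refl _)

/-- the action of `y` -/
def actY : Equiv.Perm (ℤ × (ℤ × F)) :=
  Equiv.prodShear (Equiv.refl ℤ) rho

/-- the action of the free group -/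
def Phi : F →* Equiv.Perm (ℤ × (ℤ × F)) :=
  FreeGroup.lift (fun b => if b then actY else actX)

theorem Phi_x : Phi x = actX := by simp [Phi, x]
theorem Phi_y : Phi y = actY := by simp [Phi, y]

theorem actX_apply (i : ℤ) (p : ℤ × F) : actX (i, p) = (i - 1, p) := rfl
theorem actY_apply (i : ℤ) (p : ℤ × F) : actY (i, p) = (i, rho i p) := rfl

theorem actX_zpow (k : ℤ) (i : ℤ) (p : ℤ × F) : (actX ^ k) (i, p) = (i - k, p) := by
  induction k using Int.induction_on generalizing i with
  | zero => simp
  | succ n ih =>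
    rw [zpow_add_one, Equiv.Perm.mul_apply, actX_apply, ih]
    congr 1; ring
  | pred n ih =>
    rw [zpow_sub_one, Equiv.Perm.mul_apply]
    have : actX⁻¹ (i, p) = (i + 1, p) := by
      rw [Equiv.Perm.inv_eq_iff_eq, actX_apply]; simp
    rw [this, ih]
    congr 1; ring

theorem Phi_yi (i : ℤ) (p : ℤ × F) : Phi (yi i) (0, p) = (0, rho i p) := by
  unfold yi
  rw [map_mul, map_mul, map_inv, map_zpow, Phi_x, Phi_y, ← zpow_neg]
  rw [Equiv.Perm.mul_apply, Equiv.Perm.mul_apply, actX_zpow, actY_apply, actX_zpow]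
  simp

theorem Phi_H {h : F} (hh : h ∈ H) (j : ℤ) (b : F) :
    Phi h (0, (j, b)) = (0, (j, if j = 0 then h * b else b)) := by
  induction hh using Subgroup.closure_induction generalizing b with
  | mem g hg =>
    obtain ⟨i, hi, rfl⟩ := hg
    rw [Phi_yi]
    unfold rho
    rw [if_neg (by omega), if_pos hi]
    by_cases hj : j = 0
    · simp [Equiv.prodShear, hj]
    · simp [Equiv.prodShear, hj]
  | one => simp
  | mul g k _ _ hg hk =>
    rw [map_mul, Equiv.Perm.mul_apply, hk, hg]
    by_cases hj : j = 0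
    · simp [hj, mul_assoc]
    · simp [hj]
  | inv g _ hg =>
    rw [map_inv, Equiv.Perm.inv_eq_iff_eq, hg]
    by_cases hj : j = 0
    · simp [hj]
    · simp [hj]

theorem Phi_y0 (j : ℤ) (b : F) : Phi y (0, (j, b)) = (0, (j + 1, b)) := by
  rw [Phi_y, actY_apply]
  simp [rho, Equiv.prodShear]

/-- the value of a normal form -/
def val : H → List H → F
  | h, [] => h
  | h, a :: l => h * y * val a l

theorem val_snd (l : List H) : ∀ (h : H) (j : ℤ) (b : F), ∃ b' : F,
    Phi (val h l) (0, (j, b)) = (0, (j + l.length, b')) := by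
  induction l with
  | nil =>
    intro h j b
    refine ⟨if j = 0 then (h : F) * b else b, ?_⟩
    simp only [val]
    rw [Phi_H h.2]
    simp
  | cons a l ih =>
    intro h j b
    obtain ⟨b', hb'⟩ := ih a j b
    simp only [val]
    rw [map_mul, map_mul, Equiv.Perm.mul_apply, Equiv.Perm.mul_apply, hb', Phi_y0, Phi_H h.2]
    refine ⟨if j + (l.length : ℤ) + 1 = 0 then (h : F) * b' else b', ?_⟩
    simp only [List.length_cons]
    push_cast
    rw [show j + (l.length : ℤ) + 1 = j + ((l.length : ℤ) + 1) by ring]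

theorem val_neg (l : List H) : ∀ (h : H) (j : ℤ) (b : F), j + l.length < 0 →
    Phi (val h l) (0, (j, b)) = (0, (j + l.length, b)) := by
  induction l with
  | nil =>
    intro h j b hj
    simp only [val]
    rw [Phi_H h.2]
    simp at hj ⊢
    intro h0
    omega
  | cons a l ih =>
    intro h j b hj
    simp only [val, List.length_cons] at hj ⊢
    push_cast at hj ⊢
    rw [map_mul, map_mul, Equiv.Perm.mul_apply, Equiv.Perm.mul_apply, ih a j b (by omega), Phi_y0,
      Phi_H h.2, if_neg (by omega)]
    rw [show j + (l.length : ℤ) + 1 = j + ((l.length : ℤ) + 1) by ring]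

theorem val_head (l : List H) (h : H) (b : F) :
    Phi (val h l) (0, (-(l.length : ℤ), b)) = (0, (0, h * b)) := by
  cases l with
  | nil =>
    simp only [val]
    rw [Phi_H h.2]
    simp
  | cons a l =>
    simp only [val, List.length_cons]
    push_cast
    rw [map_mul, map_mul, Equiv.Perm.mul_apply, Equiv.Perm.mul_apply, val_neg l a _ b (by omega),
      Phi_y0, Phi_H h.2]
    have : -((l.length : ℤ) + 1) + (l.length : ℤ) + 1 = 0 := by ring
    rw [this]
    simp

theorem val_inj (l : List H) : ∀ (h h' : H) (l' : List H), val h l = val h' l' → h = h' ∧ l = l' := by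
  induction l with
  | nil =>
    intro h h' l' e
    have hlen : l'.length = 0 := by
      obtain ⟨b1, hb1⟩ := val_snd [] h 0 1
      obtain ⟨b2, hb2⟩ := val_snd l' h' 0 1
      rw [e, hb2] at hb1
      simp only [Prod.mk.injEq, List.length_nil] at hb1
      have := hb1.2.1
      push_cast at this
      omega
    have hl' : l' = [] := List.length_eq_zero_iff.mp hlen
    subst hl'
    refine ⟨?_, rfl⟩
    simp only [val] at e
    exact Subtype.ext e
  | cons a l ih =>
    intro h h' l' e
    have hlen : l'.length = (a :: l).length := by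
      obtain ⟨b1, hb1⟩ := val_snd (a :: l) h 0 1
      obtain ⟨b2, hb2⟩ := val_snd l' h' 0 1
      rw [e, hb2] at hb1
      simp only [Prod.mk.injEq] at hb1
      have := hb1.2.1
      omega
    have hhead : h = h' := by
      have h1 := val_head (a :: l) h 1
      have h2 := val_head l' h' 1
      rw [hlen, ← e, h1] at h2
      simp only [Prod.mk.injEq, mul_one, true_and] at h2
      exact Subtype.ext h2
    cases l' with
    | nil => simp at hlen
    | cons a' l' =>
      subst hhead
      simp only [val] at e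
      have e' := mul_left_cancel e
      obtain ⟨h1, h2⟩ := ih a a' l' e'
      exact ⟨rfl, by rw [h1, h2]⟩

/-- the monoid homomorphism `H * ℕ → F` -/
def emb : Monoid.Coprod H (Multiplicative ℕ) →* F :=
  Monoid.Coprod.lift H.subtype (powersHom F y)

/-- normal forms in `H * ℕ` -/
def nf : H → List H → Monoid.Coprod H (Multiplicative ℕ)
  | h, [] => Monoid.Coprod.inl h
  | h, a :: l => Monoid.Coprod.inl h * Monoid.Coprod.inr (Multiplicative.ofAdd 1) * nf a l

theorem emb_nf (l : List H) : ∀ h : H, emb (nf h l) = val h l := by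
  induction l with
  | nil => intro h; simp [nf, emb, val]
  | cons a l ih =>
    intro h
    simp only [nf, val, map_mul, ih]
    simp [emb]

theorem exists_nf (w : Monoid.Coprod H (Multiplicative ℕ)) : ∃ h l, w = nf h l := by
  induction w using Monoid.Coprod.induction_on' with
  | one => exact ⟨1, [], by simp [nf]⟩
  | inl_mul m w ih =>
    obtain ⟨h, l, rfl⟩ := ih
    cases l with
    | nil => exact ⟨m * h, [], by simp [nf]⟩
    | cons a l => exact ⟨m * h, a :: l, by simp [nf, mul_assoc]⟩
  | inr_mul n w ih =>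
    obtain ⟨k, hk⟩ : ∃ k : ℕ, n = Multiplicative.ofAdd k := ⟨n.toAdd, rfl⟩
    rw [hk]
    clear hk
    induction k with
    | zero => obtain ⟨h, l, rfl⟩ := ih; exact ⟨h, l, by simp⟩
    | succ k ihk =>
      obtain ⟨h, l, hl⟩ := ihk
      refine ⟨1, h :: l, ?_⟩
      rw [show Multiplicative.ofAdd (k + 1) = Multiplicative.ofAdd 1 * Multiplicative.ofAdd k by
        rw [← ofAdd_add, add_comm], map_mul, mul_assoc, hl]
      simp [nf]

theorem emb_injective : Function.Injective emb := by
  intro w w' e
  obtain ⟨h, l, rfl⟩ := exists_nf w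
  obtain ⟨h', l', rfl⟩ := exists_nf w'
  rw [emb_nf, emb_nf] at e
  obtain ⟨h1, h2⟩ := val_inj l h h' l' e
  rw [h1, h2]

theorem emb_comp : emb.comp Monoid.Coprod.inl = H.subtype := Monoid.Coprod.lift_comp_inl _ _

end Pool.Agent.H374R3.Gap
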