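import Mathlib
import Pool.Agent.H374R3.GapEmbed

set_option autoImplicit false

/-!
Counting reduced words in the free group of rank two.
-/

namespace Pool.Agent.H374R3.Gap

open FreeGroup

abbrev Lt := Bool × Bool

/-- the three letters which may follow a given letter -/
def nxt (a : Lt) (c : Fin 3) : Lt :=
  if c = 0 then a else if c = 1 then (!a.1, true) else (!a.1, false)

theorem nxt_ok (a : Lt) (c : Fin 3) : a.1 = (nxt a c).1 → a.2 = (nxt a c).2 := by
  revert a c; decide

theorem nxt_inj (a : Lt) {c d : Fin 3} (h : nxt a c = nxt a d) : c = d := by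
  revert a c d; decide

theorem nxt_surj (a b : Lt) (h : a.1 = b.1 → a.2 = b.2) : ∃ c, nxt a c = b := by
  revert a b; decide

/-- the reduced word coded by a first letter and a sequence of choices -/
def dec : Lt → List (Fin 3) → List Lt
  | a, [] => [a]
  | a, c :: cs => a :: dec (nxt a c) cs

theorem dec_length (cs : List (Fin 3)) : ∀ a, (dec a cs).length = cs.length + 1 := by
  induction cs with
  | nil => intro a; rfl
  | cons c cs ih => intro a; simp [dec, ih]

theorem dec_cons (a : Lt) (cs : List (Fin 3)) : ∃ L, dec a cs = a :: L := by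
  cases cs with
  | nil => exact ⟨[], rfl⟩
  | cons c cs => exact ⟨_, rfl⟩

theorem dec_reduced (cs : List (Fin 3)) : ∀ a, IsReduced (dec a cs) := by
  induction cs with
  | nil => intro a; exact IsReduced.singleton
  | cons c cs ih =>
    intro a
    obtain ⟨L, hL⟩ := dec_cons (nxt a c) cs
    have h := ih (nxt a c)
    simp only [dec]
    rw [hL] at h ⊢
    exact isReduced_cons_cons.mpr ⟨nxt_ok a c, h⟩

theorem dec_inj (cs : List (Fin 3)) : ∀ (a : Lt) (ds : List (Fin 3)), dec a cs = dec a ds → cs = ds := by
  induction cs with
  | nil =>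
    intro a ds h
    have := congrArg List.length h
    rw [dec_length, dec_length] at this
    simp at this
    exact this.symm ▸ rfl
  | cons c cs ih =>
    intro a ds h
    cases ds with
    | nil =>
      have := congrArg List.length h
      rw [dec_length, dec_length] at this
      simp at this
    | cons d ds =>
      simp only [dec, List.cons.injEq, true_and] at h
      have hcd : c = d := by
        obtain ⟨L, hL⟩ := dec_cons (nxt a c) cs
        obtain ⟨L', hL'⟩ := dec_cons (nxt a d) ds
        rw [hL, hL'] at h
        exact nxt_inj a (List.cons.inj h).1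
      subst hcd
      rw [ih _ _ h]

theorem dec_surj (L : List Lt) : ∀ a, IsReduced (a :: L) → ∃ cs, cs.length = L.length ∧ dec a cs = a :: L := by
  induction L with
  | nil => intro a _; exact ⟨[], rfl, rfl⟩
  | cons b L ih =>
    intro a h
    rw [isReduced_cons_cons] at h
    obtain ⟨c, hc⟩ := nxt_surj a b h.1
    obtain ⟨cs, hcs, hd⟩ := ih b h.2
    exact ⟨c :: cs, by simp [hcs], by simp [dec, hc, hd]⟩

/-- the generating set -/
def S : Finset F := {x, y}

theorem S_closure : Subgroup.closure (S : Set F) = ⊤ := by
  have : (S : Set F) = Set.range (FreeGroup.of : Bool → F) := by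
    ext g
    simp only [S, Finset.coe_insert, Finset.coe_singleton, Set.mem_insert_iff, Set.mem_singleton_iff,
      Set.mem_range, Bool.exists_bool, x, y]
    tauto
  rw [this, FreeGroup.closure_range_of]

/-- the ball of radius `n` -/
def ball (n : ℕ) : Set F :=
  {g : F | ∃ l : List F, l.length ≤ n ∧ (∀ x ∈ l, x ∈ S ∨ x⁻¹ ∈ S) ∧ l.prod = g}

theorem norm_of_mem {g : F} (h : g ∈ S ∨ g⁻¹ ∈ S) : g.norm ≤ 1 := by
  have key : ∀ g : F, g ∈ S → g.norm ≤ 1 := by
    intro g hg
    simp only [S, Finset.mem_insert, Finset.mem_singleton, x, y] at hg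
    rcases hg with rfl | rfl <;> simp [FreeGroup.norm_of]
  rcases h with h | h
  · exact key g h
  · rw [← FreeGroup.norm_inv_eq]; exact key _ h

theorem norm_prod (l : List F) (h : ∀ x ∈ l, x ∈ S ∨ x⁻¹ ∈ S) : l.prod.norm ≤ l.length := by
  induction l with
  | nil => simp
  | cons a l ih =>
    rw [List.prod_cons, List.length_cons]
    have h1 := norm_of_mem (h a (by simp))
    have h2 := ih (fun x hx => h x (by simp [hx]))
    have := FreeGroup.norm_mul_le a l.prod
    omega

/-- parametrization of the ball -/
def par (n : ℕ) (p : Lt × Fin (n + 1) × (Fin n → Fin 3)) : F :=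
  FreeGroup.mk ((dec p.1 (List.ofFn p.2.2)).take p.2.1)

theorem dec_take (cs : List (Fin 3)) : ∀ (a : Lt) (ds : List (Fin 3)),
    (dec a (cs ++ ds)).take (cs.length + 1) = dec a cs := by
  induction cs with
  | nil =>
    intro a ds
    obtain ⟨L, hL⟩ := dec_cons a ds
    simp [hL, dec]
  | cons c cs ih =>
    intro a ds
    simp only [dec, List.cons_append, List.length_cons, List.take_succ_cons, ih]

theorem ball_subset (n : ℕ) : ball n ⊆ Set.range (par n) := by
  rintro g ⟨l, hl, hS, rfl⟩
  have hn : l.prod.norm ≤ n := (norm_prod l hS).trans hl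
  set g := l.prod with hg
  have hred : IsReduced g.toWord := isReduced_toWord
  have hmk : FreeGroup.mk g.toWord = g := mk_toWord
  have hlen : g.toWord.length ≤ n := hn
  cases hw : g.toWord with
  | nil =>
    refine ⟨((true, true), 0, fun _ => 0), ?_⟩
    simp only [par, Fin.val_zero, List.take_zero]
    rw [← hmk, hw]
  | cons a L =>
    rw [hw] at hred hlen
    obtain ⟨cs, hcs, hd⟩ := dec_surj L a hred
    rw [List.length_cons] at hlen
    -- pad
    let full : List (Fin 3) := cs ++ List.replicate (n - cs.length) 0
    have hfull : full.length = n := by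
      simp [full]; omega
    refine ⟨(a, ⟨cs.length + 1, by omega⟩, fun i => full.get (i.cast hfull.symm)), ?_⟩
    have hof : List.ofFn (fun i : Fin n => full.get (i.cast hfull.symm)) = full := by
      apply List.ext_get
      · simp [hfull]
      · intro k h1 h2
        simp
    simp only [par]
    rw [hof]
    simp only [full]
    rw [dec_take, hd, ← hmk, hw]

theorem ball_finite (n : ℕ) : (ball n).Finite := (Set.finite_range (par n)).subset (ball_subset n)

theorem ball_card (n : ℕ) : (ball n).ncard ≤ 4 * (n + 1) * 3 ^ n := by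
  calc (ball n).ncard ≤ (Set.range (par n)).ncard :=
        Set.ncard_le_ncard (ball_subset n) (Set.finite_range _)
    _ ≤ (Set.univ : Set (Lt × Fin (n + 1) × (Fin n → Fin 3))).ncard := by
        rw [← Set.image_univ]
        exact Set.ncard_image_le Set.finite_univ
    _ = 4 * (n + 1) * 3 ^ n := by
        rw [Set.ncard_univ, Nat.card_eq_fintype_card]
        simp [Fintype.card_prod, mul_assoc]

end Pool.Agent.H374R3.Gap
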