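import Mathlib
import Pool.Agent.H374R3.GapCount

set_option autoImplicit false

/-!
Lower bound for the relative growth of `H`.
-/

namespace Pool.Agent.H374R3.Gap

open FreeGroup

/-- exponent sum of `x` -/
def ex (a : Lt) : ℤ := if a.1 then 0 else if a.2 then 1 else -1

def expo (L : List Lt) : ℤ := (L.map ex).sum

@[simp] theorem expo_nil : expo [] = 0 := rfl
@[simp] theorem expo_cons (a : Lt) (L : List Lt) : expo (a :: L) = ex a + expo L := by simp [expo]
@[simp] theorem expo_append (L K : List Lt) : expo (L ++ K) = expo L + expo K := by simp [expo]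

theorem ex_abs (a : Lt) : |ex a| ≤ 1 := by
  revert a; decide

theorem expo_abs (L : List Lt) : |expo L| ≤ L.length := by
  induction L with
  | nil => simp
  | cons a L ih =>
    rw [expo_cons, List.length_cons]
    have := abs_add_le (ex a) (expo L)
    have := ex_abs a
    push_cast
    linarith

theorem mem_H_of (L : List Lt) : ∀ m : ℤ, (L.length : ℤ) + 1 ≤ m →
    x ^ m * FreeGroup.mk L * (x ^ (m + expo L))⁻¹ ∈ H := by
  induction L with
  | nil =>
    intro m _
    have : (FreeGroup.mk [] : F) = 1 := rfl
    rw [this]
    simp [H.one_mem]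
  | cons a L ih =>
    intro m hm
    rw [List.length_cons] at hm
    push_cast at hm
    have hsplit : (FreeGroup.mk (a :: L) : F) = FreeGroup.mk [a] * FreeGroup.mk L := by
      rw [FreeGroup.mul_mk]; rfl
    rw [hsplit, expo_cons]
    obtain ⟨g, s⟩ := a
    cases g with
    | false =>
      cases s with
      | true =>
        have h1 : (FreeGroup.mk [(false, true)] : F) = x := rfl
        have h2 : ex (false, true) = 1 := rfl
        have := ih (m + 1) (by omega)
        rw [h1, h2]
        convert this using 1
        rw [show m + (1 + expo L) = m + 1 + expo L by ring, zpow_add_one]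
        simp only [mul_assoc]
      | false =>
        have h1 : (FreeGroup.mk [(false, false)] : F) = x⁻¹ := rfl
        have h2 : ex (false, false) = -1 := rfl
        have := ih (m - 1) (by omega)
        rw [h1, h2]
        convert this using 1
        rw [show m + (-1 + expo L) = m - 1 + expo L by ring, zpow_sub_one]
        simp only [mul_assoc]
    | true =>
      have h2 : ex (true, s) = 0 := rfl
      rw [h2, zero_add]
      have h3 := ih m (by omega)
      have h4 : x ^ m * FreeGroup.mk [(true, s)] * (x ^ m)⁻¹ ∈ H := by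
        cases s with
        | true => exact yi_mem (by omega)
        | false =>
          have := H.inv_mem (yi_mem (i := m) (by omega))
          have h5 : (FreeGroup.mk [(true, false)] : F) = y⁻¹ := rfl
          rw [h5]
          convert this using 1
          unfold yi
          simp [mul_assoc]
      have := H.mul_mem h4 h3
      convert this using 1
      simp only [mul_assoc, inv_mul_cancel_left]

/-- reduced words of length `n` which begin and end with `y` and have `x`-exponent zero -/
def T (n : ℕ) : Set (List Lt) :=
  {L | L.length = n ∧ IsReduced L ∧ L.head? = some (true, true) ∧ L.getLast? = some (true, true) ∧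
    expo L = 0}

theorem T_finite (n : ℕ) : (T n).Finite :=
  (List.finite_length_eq Lt n).subset (fun _ hL => hL.1)

theorem reduced_append {L K : List Lt} (hL : IsReduced L) (hK : IsReduced K)
    (h1 : L.getLast? = some (true, true)) (h2 : K.head? = some (true, true)) : IsReduced (L ++ K) := by
  unfold FreeGroup.IsReduced at *
  rw [List.isChain_append]
  refine ⟨hL, hK, ?_⟩
  intro a ha b hb
  rw [h1] at ha
  rw [h2] at hb
  simp at ha hb
  subst ha
  subst hb
  simp

theorem flatten_props (m : ℕ) (LL : List (List Lt)) (h : ∀ L ∈ LL, L ∈ T m) :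
    IsReduced LL.flatten ∧ LL.flatten.length = LL.length * m ∧
    (LL.flatten = [] ∨ LL.flatten.head? = some (true, true)) ∧
    x ^ ((m : ℤ) + 1) * FreeGroup.mk LL.flatten * (x ^ ((m : ℤ) + 1))⁻¹ ∈ H := by
  induction LL with
  | nil =>
    refine ⟨IsReduced.nil, by simp, Or.inl rfl, ?_⟩
    have : (FreeGroup.mk (([] : List (List Lt)).flatten) : F) = 1 := rfl
    rw [this]
    simp [H.one_mem]
  | cons L LL ih =>
    obtain ⟨h1, h2, h3, h4⟩ := ih (fun K hK => h K (by simp [hK]))
    obtain ⟨g1, g2, g3, g4, g5⟩ := h L (by simp)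
    rw [List.flatten_cons]
    refine ⟨?_, ?_, ?_, ?_⟩
    · rcases h3 with h3 | h3
      · rw [h3, List.append_nil]; exact g2
      · exact reduced_append g2 h1 g4 h3
    · rw [List.length_append, h2, g1, List.length_cons]; ring
    · right
      rw [List.head?_append, g3]; rfl
    · have e1 := mem_H_of L ((m : ℤ) + 1) (by rw [g1])
      rw [g5, add_zero] at e1
      have := H.mul_mem e1 h4
      convert this using 1
      rw [← FreeGroup.mul_mk]
      simp only [mul_assoc, inv_mul_cancel_left]

theorem flatten_inj (m : ℕ) (LL : List (List Lt)) : ∀ KK : List (List Lt), LL.length = KK.length →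
    (∀ L ∈ LL, L.length = m) → (∀ L ∈ KK, L.length = m) → LL.flatten = KK.flatten → LL = KK := by
  induction LL with
  | nil =>
    intro KK h _ _ _
    exact (List.length_eq_zero_iff.mp h.symm).symm
  | cons L LL ih =>
    intro KK h h1 h2 h3
    cases KK with
    | nil => simp at h
    | cons K KK =>
      rw [List.flatten_cons, List.flatten_cons] at h3
      have := List.append_inj h3 (by rw [h1 L (by simp), h2 K (by simp)])
      rw [this.1, ih KK (by simpa using h) (fun L hL => h1 L (by simp [hL]))
        (fun L hL => h2 L (by simp [hL])) this.2]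

theorem mk_inj_of_reduced {L K : List Lt} (hL : IsReduced L) (hK : IsReduced K)
    (h : (FreeGroup.mk L : F) = FreeGroup.mk K) : L = K := by
  have := congrArg FreeGroup.toWord h
  rwa [FreeGroup.toWord_mk, FreeGroup.toWord_mk, hL.reduce_eq, hK.reduce_eq] at this

/-- letters as group elements -/
def lv (a : Lt) : F := FreeGroup.mk [a]

theorem lv_mem (a : Lt) : lv a ∈ S ∨ (lv a)⁻¹ ∈ S := by
  obtain ⟨g, s⟩ := a
  cases g <;> cases s
  · right
    have : (lv (false, false))⁻¹ = x := rfl
    rw [this]; simp [S]
  · left
    have : lv (false, true) = x := rfl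
    rw [this]; simp [S]
  · right
    have : (lv (true, false))⁻¹ = y := rfl
    rw [this]; simp [S]
  · left
    have : lv (true, true) = y := rfl
    rw [this]; simp [S]

theorem lv_prod (L : List Lt) : (L.map lv).prod = FreeGroup.mk L := by
  induction L with
  | nil => rfl
  | cons a L ih =>
    rw [List.map_cons, List.prod_cons, ih, lv, FreeGroup.mul_mk]; rfl

theorem conj_mem_ball (L : List Lt) (M N : ℕ) (h : L.length + 2 * M ≤ N) :
    x ^ (M : ℤ) * FreeGroup.mk L * (x ^ (M : ℤ))⁻¹ ∈ ball N := by
  refine ⟨List.replicate M x ++ L.map lv ++ List.replicate M x⁻¹, ?_, ?_, ?_⟩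
  · simp; omega
  · intro a ha
    simp only [List.mem_append, List.mem_replicate, List.mem_map] at ha
    rcases ha with (⟨-, rfl⟩ | ⟨b, -, rfl⟩) | ⟨-, rfl⟩
    · left; simp [S]
    · exact lv_mem b
    · right; simp [S]
  · simp [lv_prod, mul_assoc]

/-- the relative ball -/
def relBall (n : ℕ) : Set F :=
  {g : F | g ∈ H ∧ ∃ l : List F, l.length ≤ n ∧ (∀ x ∈ l, x ∈ S ∨ x⁻¹ ∈ S) ∧ l.prod = g}

theorem relBall_subset (n : ℕ) : relBall n ⊆ ball n := fun _ hg => hg.2

theorem relBall_card_le (n : ℕ) : (relBall n).ncard ≤ (ball n).ncard :=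
  Set.ncard_le_ncard (relBall_subset n) (ball_finite n)

theorem relBall_lower (m k : ℕ) : (T m).ncard ^ k ≤ (relBall (k * m + 2 * (m + 1))).ncard := by
  classical
  have : Finite (T m) := T_finite m
  let Psi : (Fin k → T m) → F := fun u =>
    x ^ ((m : ℤ) + 1) * FreeGroup.mk (List.ofFn (fun i => (u i).1)).flatten * (x ^ ((m : ℤ) + 1))⁻¹
  have hT : ∀ u : Fin k → T m, ∀ L ∈ List.ofFn (fun i => (u i).1), L ∈ T m := by
    intro u L hL
    rw [List.mem_ofFn] at hL
    obtain ⟨i, rfl⟩ := hL
    exact (u i).2
  have hinj : Function.Injective Psi := by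
    intro u v huv
    simp only [Psi] at huv
    have h1 := mul_left_cancel (mul_right_cancel huv)
    have h2 := mk_inj_of_reduced (flatten_props m _ (hT u)).1 (flatten_props m _ (hT v)).1 h1
    have h3 := flatten_inj m _ _ (by simp) (fun L hL => (hT u L hL).1) (fun L hL => (hT v L hL).1) h2
    have h4 := List.ofFn_injective h3
    funext i
    exact Subtype.ext (congrFun h4 i)
  have hsub : Set.range Psi ⊆ relBall (k * m + 2 * (m + 1)) := by
    rintro _ ⟨u, rfl⟩
    obtain ⟨h1, h2, h3, h4⟩ := flatten_props m _ (hT u)
    refine ⟨h4, ?_⟩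
    have h5 := conj_mem_ball (List.ofFn (fun i => (u i).1)).flatten (m + 1) (k * m + 2 * (m + 1))
      (by rw [h2]; simp)
    push_cast at h5
    exact h5
  have hfin : (relBall (k * m + 2 * (m + 1))).Finite := (ball_finite _).subset (relBall_subset _)
  calc (T m).ncard ^ k = Nat.card (Fin k → T m) := by
        rw [Nat.card_fun, Nat.card_eq_fintype_card (α := Fin k), Fintype.card_fin]
        rfl
    _ = (Set.range Psi).ncard := by
        rw [← Set.image_univ, Set.ncard_image_of_injective _ hinj, Set.ncard_univ]
    _ ≤ _ := Set.ncard_le_ncard hsub hfin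

end Pool.Agent.H374R3.Gap
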