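import Mathlib
import Pool.Agent.H374R3.GapLower

set_option autoImplicit false

/-!
Lower bound for the number of reduced words with `x`-exponent zero.
-/

namespace Pool.Agent.H374R3.Gap

/-- flip the sign of the letters `x` -/
def flipL (a : Lt) : Lt := if a.1 then a else (a.1, !a.2)

theorem flipL_inj : Function.Injective flipL := by
  intro a b; revert a b; decide

theorem ex_flip (a : Lt) : ex (flipL a) = - ex a := by
  revert a; decide

theorem flipL_chain (a b : Lt) (h : a.1 = b.1 → a.2 = b.2) :
    (flipL a).1 = (flipL b).1 → (flipL a).2 = (flipL b).2 := by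
  revert a b; decide

theorem expo_flip (L : List Lt) : expo (L.map flipL) = - expo L := by
  induction L with
  | nil => simp
  | cons a L ih =>
    rw [List.map_cons, expo_cons, expo_cons, ih, ex_flip]; ring

theorem reduced_flip {L : List Lt} (h : FreeGroup.IsReduced L) : FreeGroup.IsReduced (L.map flipL) := by
  unfold FreeGroup.IsReduced at *
  rw [List.isChain_map]
  exact h.imp (fun a b hab => flipL_chain a b hab)

/-- the connecting letter -/
def con (L : List Lt) : Lt := if L.getLast? = some (false, false) then (true, true) else (false, true)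

/-- words beginning and ending with `y` -/
def qw (n : ℕ) (v : Fin n → Fin 3) : List Lt :=
  dec (true, true) (List.ofFn v) ++ [con (dec (true, true) (List.ofFn v)), (true, true)]

theorem qw_length (n : ℕ) (v : Fin n → Fin 3) : (qw n v).length = n + 3 := by
  simp [qw, dec_length]

theorem qw_head (n : ℕ) (v : Fin n → Fin 3) : (qw n v).head? = some (true, true) := by
  obtain ⟨L, hL⟩ := dec_cons (true, true) (List.ofFn v)
  simp [qw, hL]

theorem qw_last (n : ℕ) (v : Fin n → Fin 3) : (qw n v).getLast? = some (true, true) := by
  simp [qw]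

theorem qw_reduced (n : ℕ) (v : Fin n → Fin 3) : FreeGroup.IsReduced (qw n v) := by
  have h := dec_reduced (List.ofFn v) (true, true)
  unfold qw
  set L := dec (true, true) (List.ofFn v) with hL
  unfold FreeGroup.IsReduced at *
  rw [List.isChain_append]
  refine ⟨h, ?_, ?_⟩
  · simp only [List.isChain_cons_cons, List.isChain_singleton, and_true]
    unfold con
    split_ifs <;> simp
  · intro a ha b hb
    simp only [List.head?_cons, Option.mem_def, Option.some.injEq] at hb
    subst hb
    unfold con
    split_ifs with hc
    · rw [Option.mem_def, hc] at ha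
      simp only [Option.some.injEq] at ha
      subst ha
      simp
    · rw [Option.mem_def] at ha
      rw [ha] at hc
      obtain ⟨g, s⟩ := a
      simp only [Option.some.injEq, Prod.mk.injEq, not_and, Bool.not_eq_false] at hc
      intro h1
      simp only at h1 ⊢
      exact hc h1

theorem qw_inj (n : ℕ) : Function.Injective (qw n) := by
  intro v w h
  unfold qw at h
  have h1 := (List.append_inj h (by simp [dec_length])).1
  have h2 := dec_inj _ _ _ h1
  exact List.ofFn_injective h2

theorem T_lower (n : ℕ) : (3 : ℝ) ^ n / (2 * n + 7) ≤ Real.sqrt ((T (2 * n + 6)).ncard : ℝ) := by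
  classical
  have hmaps : ∀ v ∈ (Finset.univ : Finset (Fin n → Fin 3)),
      expo (qw n v) ∈ Finset.Icc (-((n : ℤ) + 3)) ((n : ℤ) + 3) := by
    intro v _
    have := expo_abs (qw n v)
    rw [qw_length] at this
    rw [Finset.mem_Icc]
    push_cast at this
    rw [abs_le] at this
    exact ⟨by linarith [this.1], by linarith [this.2]⟩
  have hcard : (Finset.Icc (-((n : ℤ) + 3)) ((n : ℤ) + 3)).card = 2 * n + 7 := by
    rw [Int.card_Icc]; omega
  obtain ⟨e, -, he⟩ := Finset.exists_le_card_fiber_of_nsmul_le_card_of_maps_to
    (b := (3 : ℝ) ^ n / (2 * n + 7)) hmaps ⟨0, by rw [Finset.mem_Icc]; constructor <;> omega⟩ (by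
      rw [hcard, Finset.card_univ, nsmul_eq_mul]
      simp only [Fintype.card_pi, Fintype.card_fin, Finset.prod_const, Finset.card_univ]
      push_cast
      rw [mul_div_cancel₀]
      positivity)
  set P := Finset.univ.filter (fun v : Fin n → Fin 3 => expo (qw n v) = e) with hP
  -- pairs
  have hle : (P ×ˢ P).card ≤ (T (2 * n + 6)).ncard := by
    rw [← Set.ncard_coe_finset]
    have hfin : Finite (T (2 * n + 6)) := T_finite _
    apply Set.ncard_le_ncard_of_injOn (fun p => qw n p.1 ++ (qw n p.2).map flipL)
    · intro p hp
      simp only [Finset.coe_product, Set.mem_prod, Finset.mem_coe, hP, Finset.mem_filter,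
        Finset.mem_univ, true_and] at hp
      refine ⟨?_, ?_, ?_, ?_, ?_⟩
      · rw [List.length_append, List.length_map, qw_length, qw_length]; ring
      · refine reduced_append (qw_reduced _ _) (reduced_flip (qw_reduced _ _)) (qw_last _ _) ?_
        rw [List.head?_map, qw_head]; rfl
      · rw [List.head?_append, qw_head]; rfl
      · rw [List.getLast?_append, List.getLast?_map, qw_last]; rfl
      · rw [expo_append, expo_flip, hp.1, hp.2]; ring
    · intro p _ q _ h
      have h1 := List.append_inj h (by rw [qw_length, qw_length])
      have h2 := qw_inj n h1.1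
      have h3 := qw_inj n (List.map_injective_iff.mpr flipL_inj h1.2)
      exact Prod.ext h2 h3
  rw [Finset.card_product] at hle
  apply Real.le_sqrt_of_sq_le
  calc ((3 : ℝ) ^ n / (2 * n + 7)) ^ 2 ≤ (P.card : ℝ) ^ 2 := by
        apply pow_le_pow_left₀ (by positivity) he
    _ = ((P.card * P.card : ℕ) : ℝ) := by push_cast; ring
    _ ≤ _ := by exact_mod_cast hle

end Pool.Agent.H374R3.Gap
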