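import Mathlib
import Pool.Agent.H374R3.GapPigeon

set_option autoImplicit false

/-!
The two growth rates agree.
-/

namespace Pool.Agent.H374R3.Gap

open Filter Topology

theorem tendsto_w : Tendsto (fun n : ℕ => ((4 * (n + 1) * 3 ^ n : ℕ) : ℝ) ^ ((1 : ℝ) / (n : ℝ)))
    atTop (𝓝 3) := by
  have h1 := (tendsto_rpow_div_mul_add 1 (1 / 4) (-1) (by norm_num)).comp
    (tendsto_atTop_add_const_right atTop (4 : ℝ)
      ((tendsto_natCast_atTop_atTop (R := ℝ)).const_mul_atTop (by norm_num : (0 : ℝ) < 4)))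
  have h2 := h1.mul_const (3 : ℝ)
  rw [one_mul] at h2
  refine h2.congr' ?_
  filter_upwards [eventually_ge_atTop 1] with n hn
  have hn0 : (0 : ℝ) < n := by exact_mod_cast hn
  simp only [Function.comp]
  push_cast
  rw [show (4 : ℝ) * (n + 1) = 4 * n + 4 by ring, Real.mul_rpow (by positivity) (by positivity)]
  congr 1
  · congr 1
    congr 1
    ring
  · rw [← Real.rpow_natCast, ← Real.rpow_mul (by norm_num)]
    rw [mul_one_div_cancel hn0.ne', Real.rpow_one]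

theorem tendsto_low : Tendsto (fun n : ℕ => (3 : ℝ) ^ (1 - 12 / (n : ℝ)) /
    (2 * (n : ℝ) + 7) ^ ((1 : ℝ) / (n : ℝ))) atTop (𝓝 3) := by
  have h1 := (tendsto_rpow_div_mul_add 1 (1 / 2) (-(7 / 2)) (by norm_num)).comp
    (tendsto_atTop_add_const_right atTop (7 : ℝ)
      ((tendsto_natCast_atTop_atTop (R := ℝ)).const_mul_atTop (by norm_num : (0 : ℝ) < 2)))
  have h2 : Tendsto (fun n : ℕ => (2 * (n : ℝ) + 7) ^ ((1 : ℝ) / (n : ℝ))) atTop (𝓝 1) := by
    refine h1.congr' ?_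
    filter_upwards with n
    simp only [Function.comp]
    congr 1
    congr 1
    ring
  have h3 : Tendsto (fun n : ℕ => 1 - 12 / (n : ℝ)) atTop (𝓝 (1 - 0)) :=
    tendsto_const_nhds.sub (tendsto_const_div_atTop_nhds_zero_nat 12)
  have h4 : Tendsto (fun n : ℕ => (3 : ℝ) ^ (1 - 12 / (n : ℝ))) atTop (𝓝 (3 ^ ((1 : ℝ) - 0))) :=
    tendsto_const_nhds.rpow h3 (Or.inl (by norm_num))
  have h5 := h4.div h2 (by norm_num)
  have h6 : ((3 : ℝ) ^ ((1 : ℝ) - 0)) / 1 = 3 := by norm_num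
  rw [h6] at h5
  exact h5

theorem relBall_low (n : ℕ) (hn : 1 ≤ n) :
    (3 : ℝ) ^ (1 - 12 / (n : ℝ)) / (2 * (n : ℝ) + 7) ^ ((1 : ℝ) / (n : ℝ)) ≤
      ((relBall (n * (2 * n + 6) + 2 * ((2 * n + 6) + 1))).ncard : ℝ) ^
        ((1 : ℝ) / ((n * (2 * n + 6) + 2 * ((2 * n + 6) + 1) : ℕ) : ℝ)) := by
  set N := n * (2 * n + 6) + 2 * ((2 * n + 6) + 1) with hN
  have hn0 : (0 : ℝ) < n := by exact_mod_cast hn
  have hn1 : (1 : ℝ) ≤ n := by exact_mod_cast hn
  have hNr : (N : ℝ) = 2 * n ^ 2 + 10 * n + 14 := by rw [hN]; push_cast; ring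
  have hN0 : (0 : ℝ) < N := by rw [hNr]; positivity
  have h1 : (((3 : ℝ) ^ n / (2 * n + 7)) ^ (2 * n)) ≤ ((relBall N).ncard : ℝ) := by
    have h2 := T_lower n
    have h3 : ((3 : ℝ) ^ n / (2 * n + 7)) ^ 2 ≤ ((T (2 * n + 6)).ncard : ℝ) :=
      (Real.le_sqrt' (by positivity)).mp h2
    calc (((3 : ℝ) ^ n / (2 * n + 7)) ^ (2 * n)) = (((3 : ℝ) ^ n / (2 * n + 7)) ^ 2) ^ n := by
          rw [pow_mul]
      _ ≤ ((T (2 * n + 6)).ncard : ℝ) ^ n := pow_le_pow_left₀ (by positivity) h3 n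
      _ ≤ _ := by
        have := relBall_lower (2 * n + 6) n
        exact_mod_cast this
  have h4 : (((3 : ℝ) ^ n / (2 * n + 7)) ^ (2 * n)) ^ ((1 : ℝ) / (N : ℝ)) ≤
      ((relBall N).ncard : ℝ) ^ ((1 : ℝ) / (N : ℝ)) :=
    Real.rpow_le_rpow (by positivity) h1 (by positivity)
  refine le_trans ?_ h4
  rw [← Real.rpow_natCast ((3 : ℝ) ^ n / (2 * n + 7)) (2 * n), ← Real.rpow_mul (by positivity)]
  rw [Real.div_rpow (by positivity) (by positivity), ← Real.rpow_natCast 3 n,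
    ← Real.rpow_mul (by norm_num)]
  have hx : 1 - 12 / (n : ℝ) ≤ (n : ℝ) * (((2 * n : ℕ) : ℝ) * (1 / N)) := by
    push_cast
    rw [hNr]
    rw [sub_le_iff_le_add, ← sub_le_iff_le_add']
    have : (1 : ℝ) - n * (2 * n * (1 / (2 * n ^ 2 + 10 * n + 14))) =
        (10 * n + 14) / (2 * n ^ 2 + 10 * n + 14) := by
      field_simp
      ring
    rw [this, div_le_div_iff₀ (by positivity) hn0]
    nlinarith
  have hy : ((2 * n : ℕ) : ℝ) * (1 / N) ≤ 1 / n := by
    push_cast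
    rw [hNr, mul_one_div, div_le_div_iff₀ (by positivity) hn0]
    nlinarith
  apply div_le_div₀ (by positivity) (Real.rpow_le_rpow_of_exponent_le (by norm_num) hx) (by positivity)
  exact Real.rpow_le_rpow_of_exponent_le (by linarith) hy

theorem N_tendsto : Tendsto (fun n : ℕ => n * (2 * n + 6) + 2 * ((2 * n + 6) + 1)) atTop atTop := by
  apply tendsto_atTop_mono (f := fun n : ℕ => n) _ tendsto_id
  intro n
  nlinarith

theorem bdd_u : IsBoundedUnder (· ≤ ·) atTop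
    (fun n : ℕ => ((relBall n).ncard : ℝ) ^ ((1 : ℝ) / (n : ℝ))) := by
  apply IsBoundedUnder.mono_le (tendsto_w.isBoundedUnder_le)
  filter_upwards with n
  apply Real.rpow_le_rpow (by positivity) _ (by positivity)
  exact_mod_cast (relBall_card_le n).trans (ball_card n)

theorem limsup_u : (3 : ℝ) ≤ limsup (fun n : ℕ => ((relBall n).ncard : ℝ) ^ ((1 : ℝ) / (n : ℝ))) atTop := by
  apply le_of_forall_lt
  intro c hc
  obtain ⟨c', hc1, hc2⟩ := exists_between hc
  refine lt_of_lt_of_le hc1 ?_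
  apply le_limsup_of_frequently_le _ bdd_u
  have h1 : ∀ᶠ n : ℕ in atTop, c' ≤ ((relBall (n * (2 * n + 6) + 2 * ((2 * n + 6) + 1))).ncard : ℝ) ^
        ((1 : ℝ) / ((n * (2 * n + 6) + 2 * ((2 * n + 6) + 1) : ℕ) : ℝ)) := by
    filter_upwards [tendsto_low.eventually (lt_mem_nhds hc2), eventually_ge_atTop 1] with n h1 h2
    exact h1.le.trans (relBall_low n h2)
  exact N_tendsto.frequently h1.frequently

theorem limsup_v : limsup (fun n : ℕ => ((ball n).ncard : ℝ) ^ ((1 : ℝ) / (n : ℝ))) atTop ≤ 3 := by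
  rw [← tendsto_w.limsup_eq]
  apply limsup_le_limsup
  · filter_upwards with n
    apply Real.rpow_le_rpow (by positivity) _ (by positivity)
    exact_mod_cast ball_card n
  · exact IsBoundedUnder.isCoboundedUnder_le ⟨0, by
      simp only [eventually_map]
      filter_upwards with n
      positivity⟩
  · exact tendsto_w.isBoundedUnder_le

end Pool.Agent.H374R3.Gap
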