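import Mathlib

set_option autoImplicit false

namespace Pool.Agent.H374R3.Lv

open Classical

/-- `G` is amenable: it has a left-invariant finitely additive probability measure defined on
all subsets. -/
def Amenable (G : Type) [Group G] : Prop :=
  ∃ m : Set G → ℝ, (∀ A, 0 ≤ m A) ∧ m Set.univ = 1 ∧
    (∀ A B, Disjoint A B → m (A ∪ B) = m A + m B) ∧
    ∀ (g : G) (A : Set G), m ((fun x => g * x) '' A) = m A

/-- `μ` is a probability measure on the discrete group `G`. -/
def IsProb {G : Type} (μ : G → ℝ) : Prop := (∀ g, 0 ≤ μ g) ∧ HasSum μ 1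

/-- The support of `μ` generates `G` as a semigroup. -/
def NonDegenerate {G : Type} [Group G] (μ : G → ℝ) : Prop :=
  Subsemigroup.closure {g | μ g ≠ 0} = ⊤

/-- The transition probability `p_μ(y,z)`, the sum of `μ g` over all `g` with `g • y = z`. -/
noncomputable def trans {G Y : Type} [Group G] [MulAction G Y] (μ : G → ℝ) (y z : Y) : ℝ :=
  ∑' g : G, if g • y = z then μ g else 0

/-- `f` is `μ`-harmonic on the `G`-set `Y`. -/
def Harmonic {G Y : Type} [Group G] [MulAction G Y] (μ : G → ℝ) (f : Y → ℝ) : Prop :=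
  ∀ y, f y = ∑' z, f z * trans μ y z

/-- The action of `G` on `Y` is `μ`-Liouville: bounded `μ`-harmonic functions are constant. -/
def MuLiouville {G : Type} (Y : Type) [Group G] [MulAction G Y] (μ : G → ℝ) : Prop :=
  ∀ f : Y → ℝ, (∃ C, ∀ y, |f y| ≤ C) → Harmonic μ f → ∃ c, ∀ y, f y = c

/-- The set of `n`-element subsets of `X`. -/
@[ext] structure NSub (X : Type) (n : ℕ) : Type where
  /-- the underlying finite set -/
  carrier : Finset X
  card_eq : carrier.card = n

/-- `G` acts on the `n`-element subsets of `X` by taking images. -/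
noncomputable instance nsubAction (G X : Type) [Group G] [MulAction G X] (n : ℕ) :
    MulAction G (NSub X n) where
  smul g E := ⟨E.1.map (MulAction.toPerm g).toEmbedding, by rw [Finset.card_map]; exact E.2⟩
  one_smul E := NSub.ext (by
    ext x
    constructor
    · intro h
      obtain ⟨y, hy, hyx⟩ := Finset.mem_map.mp h
      have : y = x := by simpa using hyx
      exact this ▸ hy
    · intro h
      exact Finset.mem_map.mpr ⟨x, h, by simp⟩)
  mul_smul g h E := NSub.ext (by
    ext x
    constructor
    · intro hx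
      obtain ⟨y, hy, hyx⟩ := Finset.mem_map.mp hx
      refine Finset.mem_map.mpr ⟨h • y, Finset.mem_map.mpr ⟨y, hy, rfl⟩, ?_⟩
      have : (g * h) • y = x := hyx
      show g • h • y = x
      rw [← this, mul_smul]
    · intro hx
      obtain ⟨z, hz, hzx⟩ := Finset.mem_map.mp hx
      obtain ⟨y, hy, hyz⟩ := Finset.mem_map.mp hz
      refine Finset.mem_map.mpr ⟨y, hy, ?_⟩
      have h1 : h • y = z := hyz
      have h2 : g • z = x := hzx
      show (g * h) • y = x
      rw [mul_smul, h1, h2])

theorem nsub_smul_val {G X : Type} [Group G] [MulAction G X] {n : ℕ} (g : G) (E : NSub X n) :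
    (g • E).1 = E.1.map (MulAction.toPerm g).toEmbedding := rfl

/-- push-forward summation -/
theorem hasSum_push {α β : Type} (w : α → ℝ) (hw : Summable w) (q : α → β) (h : β → ℝ)
    (C : ℝ) (hC : ∀ b, |h b| ≤ C) :
    HasSum (fun b => h b * ∑' a, if q a = b then w a else 0) (∑' a, w a * h (q a)) := by
  have hC0 : ∀ a, |w a * h (q a)| ≤ C * |w a| := by
    intro a
    rw [abs_mul, mul_comm]
    exact mul_le_mul_of_nonneg_right (hC _) (abs_nonneg _)
  have hsum : Summable (fun a => w a * h (q a)) := by
    refine Summable.of_norm_bounded (g := fun a => C * |w a|) (hw.abs.mul_left C) ?_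
    intro a
    rw [Real.norm_eq_abs]
    exact hC0 a
  have h1 : HasSum (fun a => w a * h (q a)) (∑' a, w a * h (q a)) := hsum.hasSum
  have h2 := (Equiv.sigmaFiberEquiv q).hasSum_iff.mpr h1
  have h3 := h2.sigma (g := fun b => ∑' a : {a // q a = b}, w a.1 * h (q a.1)) (by
    intro b
    have hs : Summable (fun a : {a // q a = b} => w a.1 * h (q a.1)) :=
      hsum.comp_injective Subtype.val_injective
    exact hs.hasSum)
  convert h3 using 1
  funext b
  have e1 : ∀ a : {a // q a = b}, w a.1 * h (q a.1) = h b * w a.1 := by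
    intro a
    rw [a.2, mul_comm]
  rw [tsum_congr e1, tsum_mul_left]
  congr 1
  have := tsum_subtype {a | q a = b} w
  rw [show (∑' a : {a // q a = b}, w a.1) = ∑' a : ↥{a | q a = b}, w a from rfl, this]
  apply tsum_congr
  intro a
  by_cases hq : q a = b
  · simp [Set.indicator, hq]
  · simp [Set.indicator, hq]

theorem tsum_trans {G Y : Type} [Group G] [MulAction G Y] (μ : G → ℝ) (hμ : Summable μ)
    (f : Y → ℝ) (C : ℝ) (hC : ∀ y, |f y| ≤ C) (y : Y) :
    ∑' z, f z * trans μ y z = ∑' g, μ g * f (g • y) :=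
  (hasSum_push μ hμ (fun g => g • y) f C hC).tsum_eq

end Pool.Agent.H374R3.Lv
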