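import Pool.Agent.H374R3.LvMeasure

set_option autoImplicit false

namespace Pool.Agent.H374R3.Lv

open Classical

/-- the free group on two generators -/
abbrev F2 := FreeGroup Bool

/-- the four generating permutations of the set `F2` -/
noncomputable def gens : Set (Equiv.Perm F2) :=
  Set.range (fun i : Bool => Equiv.mulLeft (FreeGroup.of i)) ∪
    Set.range (fun i : Bool => Equiv.swap (1 : F2) (FreeGroup.of i))

/-- the group generated by them -/
noncomputable def H : Subgroup (Equiv.Perm F2) := Subgroup.closure gens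

theorem mulLeft_mem (w : F2) : (Equiv.mulLeft w : Equiv.Perm F2) ∈ H := by
  induction w using FreeGroup.induction_on with
  | C1 =>
    have : (Equiv.mulLeft (1 : F2) : Equiv.Perm F2) = 1 := by
      ext x; simp
    rw [this]; exact H.one_mem
  | of i => exact Subgroup.subset_closure (Or.inl ⟨i, rfl⟩)
  | inv_of i _ =>
    have : (Equiv.mulLeft (FreeGroup.of i)⁻¹ : Equiv.Perm F2) =
        (Equiv.mulLeft (FreeGroup.of i))⁻¹ := by
      ext x; rfl
    rw [this]
    exact H.inv_mem (Subgroup.subset_closure (Or.inl ⟨i, rfl⟩))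
  | mul x y hx hy =>
    have : (Equiv.mulLeft (x * y) : Equiv.Perm F2) = Equiv.mulLeft x * Equiv.mulLeft y := by
      ext z; simp
    rw [this]
    exact H.mul_mem hx hy

theorem swap_step (w : F2) (i : Bool) : Equiv.swap w (w * FreeGroup.of i) ∈ H := by
  have h1 : Equiv.swap w (w * FreeGroup.of i) =
      Equiv.mulLeft w * Equiv.swap (1 : F2) (FreeGroup.of i) * (Equiv.mulLeft w)⁻¹ := by
    rw [← Equiv.swap_apply_apply]
    simp
  rw [h1]
  exact H.mul_mem (H.mul_mem (mulLeft_mem w) (Subgroup.subset_closure (Or.inr ⟨i, rfl⟩)))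
    (H.inv_mem (mulLeft_mem w))

theorem swap_trans {x y z : F2} (hxy : Equiv.swap x y ∈ H) (hyz : Equiv.swap y z ∈ H) :
    Equiv.swap x z ∈ H := by
  by_cases h1 : x = y
  · rw [h1]; exact hyz
  by_cases h2 : x = z
  · rw [h2, Equiv.swap_self]; exact H.one_mem
  have := Equiv.swap_mul_swap_mul_swap (x := y) (y := x) (z := z) (Ne.symm h1)
  by_cases h3 : y = z
  · rw [← h3]; exact hxy
  have h4 : Equiv.swap x z = Equiv.swap x y * Equiv.swap y z * Equiv.swap x y := by
    ext t
    simp only [Equiv.Perm.coe_mul, Function.comp_apply, Equiv.swap_apply_def]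
    split_ifs <;> simp_all
  rw [h4]
  exact H.mul_mem (H.mul_mem hxy hyz) hxy

theorem swap_one_mem (w : F2) : Equiv.swap (1 : F2) w ∈ H := by
  induction w using FreeGroup.induction_on with
  | C1 => rw [Equiv.swap_self]; exact H.one_mem
  | of i => exact Subgroup.subset_closure (Or.inr ⟨i, rfl⟩)
  | inv_of i _ =>
    have := swap_step (FreeGroup.of i)⁻¹ i
    rw [inv_mul_cancel, Equiv.swap_comm] at this
    exact this
  | mul x y hx hy =>
    apply swap_trans hx
    have h1 : Equiv.swap x (x * y) =
        Equiv.mulLeft x * Equiv.swap (1 : F2) y * (Equiv.mulLeft x)⁻¹ := by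
      rw [← Equiv.swap_apply_apply]
      simp
    rw [h1]
    exact H.mul_mem (H.mul_mem (mulLeft_mem x) hy) (H.inv_mem (mulLeft_mem x))

theorem swap_mem (x y : F2) : Equiv.swap x y ∈ H :=
  swap_trans (by rw [Equiv.swap_comm]; exact swap_one_mem x) (swap_one_mem y)

theorem ofSubtype_mem (Y : Finset F2) (s : Equiv.Perm ↥Y) : Equiv.Perm.ofSubtype s ∈ H := by
  have hle : Subgroup.closure {σ : Equiv.Perm F2 | σ.IsSwap} ≤ H := by
    rw [Subgroup.closure_le]
    rintro σ ⟨x, y, _, rfl⟩
    exact swap_mem x y
  apply hle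
  rw [mem_closure_isSwap']
  apply Y.finite_toSet.subset
  intro x hx
  by_contra hxY
  apply hx
  exact Equiv.Perm.ofSubtype_apply_of_not_mem s hxY

theorem paradox_aux (i : Bool) (y : FreeGroup Bool) (hy : y ∈ FreeGroup.startsWith (i, false)) :
    FreeGroup.of i * y ∉ FreeGroup.startsWith (i, true) := by
  intro h
  unfold FreeGroup.startsWith at hy h
  rw [Set.mem_setOf_eq] at hy h
  match hl : y.toWord with
  | [] => simp [hl] at hy
  | a :: t =>
    have ha : a = (i, false) := by simpa [hl] using hy
    have hred : FreeGroup.IsReduced ((i, false) :: t) := by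
      have := FreeGroup.isReduced_toWord (x := y)
      rw [hl, ha] at this
      exact this
    have htred : FreeGroup.IsReduced t := by
      cases t with
      | nil => exact FreeGroup.IsReduced.nil
      | cons b t => exact (FreeGroup.isReduced_cons_cons.mp hred).2
    have hmk : FreeGroup.of i * y = FreeGroup.mk t := by
      have e1 : y = FreeGroup.mk ((i, false) :: t) := by
        rw [← ha, ← hl, FreeGroup.mk_toWord]
      rw [e1]
      have e2 : FreeGroup.mk ((i, false) :: t) = (FreeGroup.of i)⁻¹ * FreeGroup.mk t := by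
        rw [FreeGroup.of, FreeGroup.inv_mk, FreeGroup.mul_mk]
        rfl
      rw [e2, mul_inv_cancel_left]
    rw [hmk, FreeGroup.toWord_mk, htred.reduce_eq] at h
    cases t with
    | nil => simp at h
    | cons b t =>
      have hb : b = (i, true) := by simpa using h
      have h3 := (FreeGroup.isReduced_cons_cons.mp hred).1
      rw [hb] at h3
      simp at h3

/-- A group with a map to the free group which is equivariant for two left multiplications is
not amenable. -/
theorem not_amenable {G : Type} [Group G] (q : G → F2) (g : Bool → G)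
    (hq : ∀ i x, q (g i * x) = FreeGroup.of i * q x) : ¬ Amenable G := by
  rintro ⟨m, h0, h1, hadd, hinv⟩
  have hq' : ∀ i x, q ((g i)⁻¹ * x) = (FreeGroup.of i)⁻¹ * q x := by
    intro i x
    have := hq i ((g i)⁻¹ * x)
    rw [mul_inv_cancel_left] at this
    rw [this, inv_mul_cancel_left]
  set A : Bool × Bool → Set G := fun w => q ⁻¹' (FreeGroup.startsWith w) with hA
  have hdis : ∀ w w', w ≠ w' → Disjoint (A w) (A w') := fun w w' h =>
    Disjoint.preimage q (FreeGroup.startsWith.disjoint_iff_ne.mpr h)
  have him : ∀ i : Bool, (fun x => g i * x) '' (A (i, false)) = (A (i, true))ᶜ := by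
    intro i
    ext y
    constructor
    · rintro ⟨x, hx, rfl⟩
      show ¬ (q (g i * x) ∈ FreeGroup.startsWith (i, true))
      rw [hq]
      exact paradox_aux i (q x) hx
    · intro hy
      refine ⟨(g i)⁻¹ * y, ?_, by simp⟩
      show q ((g i)⁻¹ * y) ∈ FreeGroup.startsWith (i, false)
      rw [hq']
      have h2 := FreeGroup.startsWith_mk_mul (w := (i, false)) (q y) hy
      have h3 : (FreeGroup.of i)⁻¹ = FreeGroup.mk [(i, false)] := by
        rw [FreeGroup.of, FreeGroup.inv_mk]
        rfl
      rw [h3]
      exact h2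
  have hone : ∀ i : Bool, m (A (i, true)) + m (A (i, false)) = 1 := by
    intro i
    have e1 : m (A (i, true) ∪ (A (i, true))ᶜ) = m (A (i, true)) + m ((A (i, true))ᶜ) :=
      hadd _ _ disjoint_compl_right
    rw [Set.union_compl_self, h1, ← him i, hinv] at e1
    exact e1.symm
  have hT : m (A (true, true) ∪ A (true, false)) = m (A (true, true)) + m (A (true, false)) :=
    hadd _ _ (hdis _ _ (by decide))
  have hF : m (A (false, true) ∪ A (false, false)) = m (A (false, true)) + m (A (false, false)) :=
    hadd _ _ (hdis _ _ (by decide))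
  have hTF : m ((A (true, true) ∪ A (true, false)) ∪ (A (false, true) ∪ A (false, false))) =
      m (A (true, true) ∪ A (true, false)) + m (A (false, true) ∪ A (false, false)) := by
    apply hadd
    rw [Set.disjoint_union_left, Set.disjoint_union_right, Set.disjoint_union_right]
    exact ⟨⟨hdis _ _ (by decide), hdis _ _ (by decide)⟩, ⟨hdis _ _ (by decide), hdis _ _ (by decide)⟩⟩
  have hall := hadd ((A (true, true) ∪ A (true, false)) ∪ (A (false, true) ∪ A (false, false)))
    ((A (true, true) ∪ A (true, false)) ∪ (A (false, true) ∪ A (false, false)))ᶜ disjoint_compl_right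
  rw [Set.union_compl_self, h1] at hall
  have h5 := h0 ((A (true, true) ∪ A (true, false)) ∪ (A (false, true) ∪ A (false, false)))ᶜ
  have h6 := hone true
  have h7 := hone false
  linarith

theorem H_not_amenable : ¬ Amenable H :=
  not_amenable (fun s : H => (s.1 1 : F2)) (fun i => ⟨Equiv.mulLeft (FreeGroup.of i), mulLeft_mem _⟩)
    (fun _ _ => rfl)

end Pool.Agent.H374R3.Lv
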