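import Pool.Agent.H374R3.LvDefs

set_option autoImplicit false

namespace Pool.Agent.H374R3.Lv

open Classical

section
variable {X G : Type} [Group G] [MulAction G X] (sg : (Y : Finset X) → Equiv.Perm ↥Y → G)

/-- first points -/
noncomputable def pts (xs : ℕ → X) (j : ℕ) : Finset X := (Finset.range (j + 1)).image xs

/-- one step of growth -/
noncomputable def grow (P : Finset G) (Z : Finset X) : Finset X :=
  Z ∪ (P ×ˢ Z).image (fun p => p.1 • p.2)

theorem subset_grow (P : Finset G) (Z : Finset X) : Z ⊆ grow P Z := Finset.subset_union_left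

theorem grow_iter_mono (P : Finset G) (Z : Finset X) {k l : ℕ} (h : k ≤ l) :
    (grow P)^[k] Z ⊆ (grow P)^[l] Z := by
  induction l, h using Nat.le_induction with
  | base => exact subset_rfl
  | succ l _ ih =>
    rw [Function.iterate_succ_apply']
    exact ih.trans (subset_grow P _)

theorem mem_grow {P : Finset G} {Z : Finset X} {g : G} {x : X} (hg : g ∈ P) (hx : x ∈ Z) :
    g • x ∈ grow P Z := by
  apply Finset.mem_union_right
  exact Finset.mem_image.mpr ⟨(g, x), Finset.mem_product.mpr ⟨hg, hx⟩, rfl⟩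

/-- the recursive construction -/
noncomputable def state (xs : ℕ → X) (gs : ℕ → G) : ℕ → Finset G × Finset X
  | 0 => (∅, ∅)
  | (j + 1) =>
    ((state xs gs j).1 ∪ Finset.univ.image
      (fun s : Equiv.Perm ↥((state xs gs j).2 ∪ (grow (state xs gs j).1)^[j * 2 ^ j] (pts xs j)) =>
        gs j * sg _ s),
      (state xs gs j).2 ∪ (grow (state xs gs j).1)^[j * 2 ^ j] (pts xs j))

theorem exists_seq (xs : ℕ → X) (gs : ℕ → G) :
    ∃ (Y : ℕ → Finset X) (P : ℕ → Finset G), (∀ j, Y j ⊆ Y (j + 1)) ∧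
      (∀ j, (grow (P j))^[j * 2 ^ j] (pts xs j) ⊆ Y j) ∧ (∀ j, P j ⊆ P (j + 1)) ∧
      ∀ j (s : Equiv.Perm ↥(Y j)), gs j * sg (Y j) s ∈ P (j + 1) := by
  refine ⟨fun j => (state sg xs gs (j + 1)).2, fun j => (state sg xs gs j).1,
    ?_, ?_, ?_, ?_⟩
  · intro j
    show (state sg xs gs (j + 1)).2 ⊆
      (state sg xs gs (j + 1)).2 ∪ _
    exact Finset.subset_union_left
  · intro j
    show _ ⊆ (state sg xs gs j).2 ∪ _
    exact Finset.subset_union_right
  · intro j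
    show (state sg xs gs j).1 ⊆ (state sg xs gs j).1 ∪ _
    exact Finset.subset_union_left
  · intro j s
    show _ ∈ (state sg xs gs j).1 ∪ Finset.univ.image
      (fun s : Equiv.Perm ↥((state sg xs gs j).2 ∪
        (grow (state sg xs gs j).1)^[j * 2 ^ j] (pts xs j)) => gs j * sg _ s)
    apply Finset.mem_union_right
    exact Finset.mem_image.mpr ⟨s, Finset.mem_univ _, rfl⟩

/-- the average of `f` over the `j`-th level -/
noncomputable def avg (gs : ℕ → G) (Y : ℕ → Finset X) {n : ℕ} (f : NSub X n → ℝ) (j : ℕ)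
    (E : NSub X n) : ℝ :=
  (∑ s : Equiv.Perm ↥(Y j), f ((gs j * sg (Y j) s) • E)) /
    (Fintype.card (Equiv.Perm ↥(Y j)) : ℝ)

theorem avg_eq (hmul : ∀ Y s t, sg Y (s * t) = sg Y s * sg Y t)
    (hsm : ∀ (Y : Finset X) (s : Equiv.Perm ↥Y) (x : ↥Y), sg Y s • (x : X) = (s x : X)) (gs : ℕ → G) (Y : ℕ → Finset X) {n : ℕ} (f : NSub X n → ℝ) (j : ℕ)
    (E E' : NSub X n) (hE : E.1 ⊆ Y j) (hE' : E'.1 ⊆ Y j) :
    avg sg gs Y f j E = avg sg gs Y f j E' := by
  have hcard : Fintype.card {y : ↥(Y j) // (y : X) ∈ E.1} =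
      Fintype.card {y : ↥(Y j) // (y : X) ∈ E'.1} := by
    have h : ∀ F : NSub X n, F.1 ⊆ Y j → Fintype.card {y : ↥(Y j) // (y : X) ∈ F.1} = n := by
      intro F hF
      have h0 := F.2
      rw [← Fintype.card_coe F.1] at h0
      refine Eq.trans ?_ h0
      refine Fintype.card_congr
        ⟨fun y => ⟨y.1.1, y.2⟩, fun y => ⟨⟨y.1, hF y.2⟩, y.2⟩, fun y => rfl, fun y => rfl⟩
    rw [h E hE, h E' hE']
  let e := Fintype.equivOfCardEq hcard
  let r : Equiv.Perm ↥(Y j) := e.extendSubtype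
  have hr : sg (Y j) r • E = E' := by
    apply NSub.ext
    rw [nsub_smul_val]
    apply Finset.eq_of_subset_of_card_le
    · intro x hx
      obtain ⟨y, hy, hyx⟩ := Finset.mem_map.mp hx
      have h1 : sg (Y j) r • y = x := hyx
      have h2 := hsm (Y j) r ⟨y, hE hy⟩
      rw [← h1]
      show sg (Y j) r • y ∈ E'.1
      have h3 : sg (Y j) r • y = ((r ⟨y, hE hy⟩ : ↥(Y j)) : X) := h2
      rw [h3]
      exact e.extendSubtype_mem ⟨y, hE hy⟩ hy
    · rw [Finset.card_map, E.2, E'.2]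
  unfold avg
  congr 1
  rw [← hr]
  rw [← Equiv.sum_comp (Equiv.mulRight r)]
  apply Finset.sum_congr rfl
  intro s _
  show f ((gs j * sg (Y j) (s * r)) • E) = _
  rw [hmul, ← mul_assoc, mul_smul]

theorem avg_sub_le (gs : ℕ → G) (Y : ℕ → Finset X) {n : ℕ} (f : NSub X n → ℝ) (j : ℕ)
    (E E' : NSub X n) (B : ℝ)
    (hB : ∀ s : Equiv.Perm ↥(Y j), |f ((gs j * sg (Y j) s) • E) -
      f ((gs j * sg (Y j) s) • E')| ≤ B) :
    |avg sg gs Y f j E - avg sg gs Y f j E'| ≤ B := by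
  have hpos : (0 : ℝ) < (Fintype.card (Equiv.Perm ↥(Y j)) : ℝ) := by
    exact_mod_cast Fintype.card_pos
  unfold avg
  rw [← sub_div, ← Finset.sum_sub_distrib, abs_div, abs_of_pos hpos, div_le_iff₀ hpos]
  calc |∑ s : Equiv.Perm ↥(Y j), (f ((gs j * sg (Y j) s) • E) -
      f ((gs j * sg (Y j) s) • E'))|
      ≤ ∑ s : Equiv.Perm ↥(Y j), |f ((gs j * sg (Y j) s) • E) -
      f ((gs j * sg (Y j) s) • E')| := Finset.abs_sum_le_sum_abs _ _
    _ ≤ ∑ s : Equiv.Perm ↥(Y j), B := Finset.sum_le_sum (fun s _ => hB s)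
    _ = B * (Fintype.card (Equiv.Perm ↥(Y j)) : ℝ) := by
      rw [Finset.sum_const, Finset.card_univ, nsmul_eq_mul, mul_comm]

theorem geom_half (j : ℕ) : ∑ i ∈ Finset.range j, ((1 : ℝ) / 2) ^ (i + 1) = 1 - (1 / 2) ^ j := by
  induction j with
  | zero => simp
  | succ j ih => rw [Finset.sum_range_succ, ih]; ring

theorem osc (hmul : ∀ Y s t, sg Y (s * t) = sg Y s * sg Y t)
    (hsm : ∀ (Y : Finset X) (s : Equiv.Perm ↥Y) (x : ↥Y), sg Y s • (x : X) = (s x : X)) (xs : ℕ → X) (gs : ℕ → G) (Y : ℕ → Finset X) (P : ℕ → Finset G)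
    (hY : ∀ j, Y j ⊆ Y (j + 1))
    (hYg : ∀ j, (grow (P j))^[j * 2 ^ j] (pts xs j) ⊆ Y j) (hP : ∀ j, P j ⊆ P (j + 1))
    (hPs : ∀ j (s : Equiv.Perm ↥(Y j)), gs j * sg (Y j) s ∈ P (j + 1))
    {n : ℕ} (f : NSub X n → ℝ) (C : ℝ) (hC : ∀ E, |f E| ≤ C)
    (hf : ∀ E, HasSum (fun j => ((1 : ℝ) / 2) ^ (j + 1) * avg sg gs Y f j E) (f E)) (j : ℕ) :
    ∀ (m k : ℕ), k + m = j * 2 ^ j → ∀ E E' : NSub X n,
      E.1 ⊆ (grow (P j))^[k] (pts xs j) → E'.1 ⊆ (grow (P j))^[k] (pts xs j) →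
      |f E - f E'| ≤ (1 - (1 / 2) ^ j) ^ m * (2 * C) := by
  have hYm : Monotone Y := monotone_nat_of_le_succ hY
  have hPm : Monotone P := monotone_nat_of_le_succ hP
  intro m
  induction m with
  | zero =>
    intro k _ E E' _ _
    rw [pow_zero, one_mul]
    calc |f E - f E'| ≤ |f E| + |f E'| := abs_sub _ _
      _ ≤ 2 * C := by linarith [hC E, hC E']
  | succ m ih =>
    intro k hk E E' hE hE'
    have hkN : k ≤ j * 2 ^ j := by omega
    have hEY : E.1 ⊆ Y j := (hE.trans (grow_iter_mono _ _ hkN)).trans (hYg j)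
    have hEY' : E'.1 ⊆ Y j := (hE'.trans (grow_iter_mono _ _ hkN)).trans (hYg j)
    have hstep : ∀ F : NSub X n, F.1 ⊆ (grow (P j))^[k] (pts xs j) → ∀ g ∈ P j,
        (g • F).1 ⊆ (grow (P j))^[k + 1] (pts xs j) := by
      intro F hF g hg x hx
      rw [nsub_smul_val] at hx
      obtain ⟨y, hy, hyx⟩ := Finset.mem_map.mp hx
      have h1 : g • y = x := hyx
      rw [Function.iterate_succ_apply', ← h1]
      exact mem_grow hg (hF hy)
    have hdiff := (hf E).sub (hf E')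
    have hfinite : HasSum (fun i => ((1 : ℝ) / 2) ^ (i + 1) * avg sg gs Y f i E -
        ((1 : ℝ) / 2) ^ (i + 1) * avg sg gs Y f i E')
        (∑ i ∈ Finset.range j, (((1 : ℝ) / 2) ^ (i + 1) * avg sg gs Y f i E -
        ((1 : ℝ) / 2) ^ (i + 1) * avg sg gs Y f i E')) := by
      apply hasSum_sum_of_ne_finset_zero
      intro i hi
      have hij : j ≤ i := by
        by_contra hlt
        exact hi (Finset.mem_range.mpr (by omega))
      rw [avg_eq sg hmul hsm gs Y f i E E' (hEY.trans (hYm hij)) (hEY'.trans (hYm hij)), sub_self]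
    rw [hdiff.unique hfinite]
    set B := (1 - (1 / 2 : ℝ) ^ j) ^ m * (2 * C) with hB
    have hbound : ∀ i ∈ Finset.range j, |((1 : ℝ) / 2) ^ (i + 1) * avg sg gs Y f i E -
        ((1 : ℝ) / 2) ^ (i + 1) * avg sg gs Y f i E'| ≤ ((1 : ℝ) / 2) ^ (i + 1) * B := by
      intro i hi
      have hij : i < j := Finset.mem_range.mp hi
      rw [← mul_sub, abs_mul, abs_of_pos (by positivity : (0 : ℝ) < (1 / 2) ^ (i + 1))]
      apply mul_le_mul_of_nonneg_left _ (by positivity)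
      apply avg_sub_le
      intro s
      have hg : gs i * sg (Y i) s ∈ P j := hPm (by omega : i + 1 ≤ j) (hPs i s)
      exact ih (k + 1) (by omega) _ _ (hstep E hE _ hg) (hstep E' hE' _ hg)
    calc |∑ i ∈ Finset.range j, (((1 : ℝ) / 2) ^ (i + 1) * avg sg gs Y f i E -
        ((1 : ℝ) / 2) ^ (i + 1) * avg sg gs Y f i E')|
        ≤ ∑ i ∈ Finset.range j, |((1 : ℝ) / 2) ^ (i + 1) * avg sg gs Y f i E -
        ((1 : ℝ) / 2) ^ (i + 1) * avg sg gs Y f i E'| := Finset.abs_sum_le_sum_abs _ _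
      _ ≤ ∑ i ∈ Finset.range j, ((1 : ℝ) / 2) ^ (i + 1) * B := Finset.sum_le_sum hbound
      _ = (1 - (1 / 2) ^ j) ^ (m + 1) * (2 * C) := by
        rw [← Finset.sum_mul, geom_half, hB]; ring

theorem all_eq (hmul : ∀ Y s t, sg Y (s * t) = sg Y s * sg Y t)
    (hsm : ∀ (Y : Finset X) (s : Equiv.Perm ↥Y) (x : ↥Y), sg Y s • (x : X) = (s x : X)) (xs : ℕ → X) (hxs : Function.Surjective xs) (gs : ℕ → G) (Y : ℕ → Finset X)
    (P : ℕ → Finset G) (hY : ∀ j, Y j ⊆ Y (j + 1))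
    (hYg : ∀ j, (grow (P j))^[j * 2 ^ j] (pts xs j) ⊆ Y j) (hP : ∀ j, P j ⊆ P (j + 1))
    (hPs : ∀ j (s : Equiv.Perm ↥(Y j)), gs j * sg (Y j) s ∈ P (j + 1))
    {n : ℕ} (f : NSub X n → ℝ) (C : ℝ) (hC : ∀ E, |f E| ≤ C)
    (hf : ∀ E, HasSum (fun j => ((1 : ℝ) / 2) ^ (j + 1) * avg sg gs Y f j E) (f E))
    (E E' : NSub X n) : f E = f E' := by
  have hpt : ∀ F : Finset X, ∃ j0, ∀ j, j0 ≤ j → F ⊆ pts xs j := by
    intro F
    induction F using Finset.induction_on with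
    | empty => exact ⟨0, fun j _ => Finset.empty_subset _⟩
    | insert a F _ ih =>
      obtain ⟨j0, hj0⟩ := ih
      obtain ⟨i, hi⟩ := hxs a
      refine ⟨max j0 i, fun j hj => ?_⟩
      apply Finset.insert_subset
      · exact Finset.mem_image.mpr ⟨i, Finset.mem_range.mpr (by omega), hi⟩
      · exact hj0 j (le_trans (le_max_left _ _) hj)
  obtain ⟨j1, h1⟩ := hpt E.1
  obtain ⟨j2, h2⟩ := hpt E'.1
  have hC0 : 0 ≤ C := le_trans (abs_nonneg _) (hC E)
  have key : ∀ j, max j1 j2 ≤ j → |f E - f E'| ≤ Real.exp (-(j : ℝ)) * (2 * C) := by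
    intro j hj
    have h := osc sg hmul hsm xs gs Y P hY hYg hP hPs f C hC hf j (j * 2 ^ j) 0 (by omega) E E'
      (h1 j (le_trans (le_max_left _ _) hj)) (h2 j (le_trans (le_max_right _ _) hj))
    refine h.trans (mul_le_mul_of_nonneg_right ?_ (by linarith))
    have e1 : (1 - (1 / 2 : ℝ) ^ j) ≤ Real.exp (-(1 / 2 : ℝ) ^ j) := by
      have := Real.add_one_le_exp (-(1 / 2 : ℝ) ^ j)
      linarith
    have e0 : (0 : ℝ) ≤ 1 - (1 / 2) ^ j := by
      have : ((1 : ℝ) / 2) ^ j ≤ 1 := pow_le_one₀ (by norm_num) (by norm_num)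
      linarith
    calc (1 - (1 / 2 : ℝ) ^ j) ^ (j * 2 ^ j) ≤ (Real.exp (-(1 / 2 : ℝ) ^ j)) ^ (j * 2 ^ j) :=
          pow_le_pow_left₀ e0 e1 _
      _ = Real.exp (-(j : ℝ)) := by
        rw [← Real.exp_nat_mul]
        congr 1
        push_cast
        have : ((1 : ℝ) / 2) ^ j * 2 ^ j = 1 := by
          rw [← mul_pow]; norm_num
        calc (j : ℝ) * 2 ^ j * -(1 / 2) ^ j = -(j * ((1 / 2) ^ j * 2 ^ j)) := by ring
          _ = -(j : ℝ) := by rw [this, mul_one]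
  have hlim : Filter.Tendsto (fun j : ℕ => Real.exp (-(j : ℝ)) * (2 * C)) Filter.atTop
      (nhds (0 * (2 * C))) := by
    apply Filter.Tendsto.mul_const
    exact Real.tendsto_exp_neg_atTop_nhds_zero.comp tendsto_natCast_atTop_atTop
  rw [zero_mul] at hlim
  have hle : |f E - f E'| ≤ 0 := by
    refine ge_of_tendsto hlim ?_
    exact Filter.eventually_atTop.mpr ⟨max j1 j2, key⟩
  have := abs_nonpos_iff.mp hle
  linarith

end

end Pool.Agent.H374R3.Lv
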