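import Pool.Agent.H374R3.LvMain

set_option autoImplicit false

namespace Pool.Agent.H374R3.Lv

open Classical

theorem hasSum_half : HasSum (fun j : ℕ => ((1 : ℝ) / 2) ^ (j + 1)) 1 := by
  have h := hasSum_geometric_two' (1 : ℝ)
  convert h using 1
  funext j
  rw [pow_succ, one_div, inv_pow]
  field_simp

theorem exists_measure {X G : Type} [Group G] [MulAction G X] [Countable X] [Nonempty X]
    [Countable G] (sg : (Y : Finset X) → Equiv.Perm ↥Y → G)
    (hmul : ∀ Y s t, sg Y (s * t) = sg Y s * sg Y t) (hone : ∀ Y, sg Y 1 = 1)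
    (hsm : ∀ (Y : Finset X) (s : Equiv.Perm ↥Y) (x : ↥Y), sg Y s • (x : X) = (s x : X)) :
    ∃ μ : G → ℝ, IsProb μ ∧ NonDegenerate μ ∧ ∀ n, MuLiouville (NSub X n) μ := by
  obtain ⟨xs, hxs⟩ := exists_surjective_nat X
  obtain ⟨gs, hgs⟩ := exists_surjective_nat G
  obtain ⟨Y, P, hY, hYg, hP, hPs⟩ := exists_seq sg xs gs
  let w : (Σ j : ℕ, Equiv.Perm ↥(Y j)) → ℝ := fun a =>
    ((1 : ℝ) / 2) ^ (a.1 + 1) / (Fintype.card (Equiv.Perm ↥(Y a.1)) : ℝ)
  let q : (Σ j : ℕ, Equiv.Perm ↥(Y j)) → G := fun a => gs a.1 * sg (Y a.1) a.2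
  have hcard : ∀ j, (0 : ℝ) < (Fintype.card (Equiv.Perm ↥(Y j)) : ℝ) := by
    intro j
    exact_mod_cast Fintype.card_pos
  have hw0 : ∀ a, 0 < w a := by
    intro a
    exact div_pos (by positivity) (hcard a.1)
  have hin : ∀ (h : ℝ → ℝ) (F : (j : ℕ) → Equiv.Perm ↥(Y j) → ℝ) (j : ℕ),
      (∑' s : Equiv.Perm ↥(Y j), w ⟨j, s⟩ * F j s) =
      ((1 : ℝ) / 2) ^ (j + 1) * ((∑ s, F j s) / (Fintype.card (Equiv.Perm ↥(Y j)) : ℝ)) := by
    intro h F j
    rw [tsum_fintype, Finset.sum_div, Finset.mul_sum]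
    apply Finset.sum_congr rfl
    intro s _
    show ((1 : ℝ) / 2) ^ (j + 1) / (Fintype.card (Equiv.Perm ↥(Y j)) : ℝ) * F j s = _
    ring
  have hin1 : ∀ j : ℕ, (∑' s : Equiv.Perm ↥(Y j), w ⟨j, s⟩) = ((1 : ℝ) / 2) ^ (j + 1) := by
    intro j
    have := hin id (fun _ _ => 1) j
    simp only [mul_one] at this
    rw [this, Finset.sum_const, Finset.card_univ, nsmul_eq_mul, mul_one, div_self (hcard j).ne',
      mul_one]
  have hwsum : Summable w := by
    rw [summable_sigma_of_nonneg (fun a => (hw0 a).le)]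
    refine ⟨fun j => (hasSum_fintype _).summable, ?_⟩
    exact hasSum_half.summable.congr (fun j => (hin1 j).symm)
  have hw1 : ∑' a, w a = 1 := by
    rw [hwsum.tsum_sigma]
    rw [tsum_congr hin1]
    exact hasSum_half.tsum_eq
  let μ : G → ℝ := fun g => ∑' a, if q a = g then w a else 0
  have hμ0 : ∀ g, 0 ≤ μ g := by
    intro g
    apply tsum_nonneg
    intro a
    split_ifs
    · exact (hw0 a).le
    · exact le_rfl
  have hμ1 : HasSum μ 1 := by
    have h := hasSum_push w hwsum q (fun _ => 1) 1 (by intro b; simp)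
    simp only [one_mul, mul_one] at h
    rwa [hw1] at h
  refine ⟨μ, ⟨hμ0, hμ1⟩, ?_, ?_⟩
  · have huniv : {g | μ g ≠ 0} = Set.univ := by
      apply Set.eq_univ_of_forall
      intro g
      obtain ⟨j, hj⟩ := hgs g
      have hqa : q ⟨j, 1⟩ = g := by
        show gs j * sg (Y j) 1 = g
        rw [hone, mul_one, hj]
      have hs : Summable (fun a => if q a = g then w a else 0) := by
        refine Summable.of_nonneg_of_le (fun a => ?_) (fun a => ?_) hwsum
        · split_ifs
          · exact (hw0 a).le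
          · exact le_rfl
        · split_ifs
          · exact le_rfl
          · exact (hw0 a).le
      have hle := hs.le_tsum ⟨j, 1⟩ (fun a _ => by
        split_ifs
        · exact (hw0 a).le
        · exact le_rfl)
      rw [if_pos hqa] at hle
      exact (lt_of_lt_of_le (hw0 _) hle).ne'
    unfold NonDegenerate
    rw [huniv]
    exact Subsemigroup.closure_univ
  · intro n f hf hharm
    obtain ⟨C, hC⟩ := hf
    have hrep : ∀ E : NSub X n,
        HasSum (fun j => ((1 : ℝ) / 2) ^ (j + 1) * avg sg gs Y f j E) (f E) := by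
      intro E
      have e1 : f E = ∑' g, μ g * f (g • E) := by
        rw [hharm E]
        exact tsum_trans μ hμ1.summable f C hC E
      have e2 : ∑' g, μ g * f (g • E) = ∑' a, w a * f (q a • E) := by
        have h := (hasSum_push w hwsum q (fun g => f (g • E)) C (fun g => hC _)).tsum_eq
        rw [← h]
        apply tsum_congr
        intro g
        rw [mul_comm]
      have hs : Summable (fun a => w a * f (q a • E)) := by
        refine Summable.of_norm_bounded (g := fun a => C * w a) (hwsum.mul_left C) ?_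
        intro a
        rw [Real.norm_eq_abs, abs_mul, abs_of_pos (hw0 a), mul_comm]
        exact mul_le_mul_of_nonneg_right (hC _) (hw0 a).le
      have h3 := hs.hasSum.sigma (g := fun j => ((1 : ℝ) / 2) ^ (j + 1) * avg sg gs Y f j E) (by
        intro j
        have h4 := hin id (fun j s => f ((gs j * sg (Y j) s) • E)) j
        have h5 : (∑' s : Equiv.Perm ↥(Y j), w ⟨j, s⟩ * f ((gs j * sg (Y j) s) • E)) =
            ((1 : ℝ) / 2) ^ (j + 1) * avg sg gs Y f j E := h4
        rw [← h5]
        have h6 : Summable (fun s : Equiv.Perm ↥(Y j) =>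
            w ⟨j, s⟩ * f ((gs j * sg (Y j) s) • E)) := (hasSum_fintype _).summable
        exact h6.hasSum)
      rw [← e2, ← e1] at h3
      exact h3
    by_cases hne : Nonempty (NSub X n)
    · obtain ⟨E0⟩ := hne
      exact ⟨f E0, fun E => all_eq sg hmul hsm xs hxs gs Y P hY hYg hP hPs f C hC hrep E E0⟩
    · exact ⟨0, fun E => absurd ⟨E⟩ hne⟩

end Pool.Agent.H374R3.Lv
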